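import Pool.Agent.U562.WV.Stm
set_option autoImplicit false

/-! Sets of Assouad dimension at most two are thin. -/

open MeasureTheory Set Metric
open scoped ENNReal NNReal FourierTransform RealInnerProductSpace SchwartzMap

namespace Pool.Agent.U562.WV

lemma thin_of_cover {N : ℝ} (hN : 0 ≤ N) {K : Set (E 3)} (hK : K.Nonempty)
    (h : ∀ (b : E 3) (ρ r : ℝ), 0 < r → r ≤ ρ → ∃ F : Finset (E 3),
      (F.card : ℝ) ≤ N * (ρ / r) ^ 2 ∧ K ∩ ball b ρ ⊆ ⋃ z ∈ F, ball z r) :
    Thin (140 * N + 5) K := by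
  intro b ρ r hρ hr
  have hpi : Real.pi < 3.15 := Real.pi_lt_d2
  have hpi0 := Real.pi_pos
  by_cases hrρ : r ≤ ρ
  · obtain ⟨F, hF1, hF2⟩ := h b (ρ + r) r hr (by linarith)
    have hsub : ball b ρ ∩ {x | infDist x K < r} ⊆ ⋃ z ∈ F, ball z (2 * r) := by
      rintro x ⟨hx1, hx2⟩
      obtain ⟨y, hy, hxy⟩ := (infDist_lt_iff hK).mp hx2
      have hyb : y ∈ ball b (ρ + r) := by
        rw [mem_ball] at hx1 ⊢
        calc dist y b ≤ dist y x + dist x b := dist_triangle _ _ _
          _ < r + ρ := by rw [dist_comm y x]; exact add_lt_add hxy hx1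
          _ = ρ + r := by ring
      obtain ⟨z, hz, hyz⟩ := mem_iUnion₂.mp (hF2 ⟨hy, hyb⟩)
      refine mem_iUnion₂.mpr ⟨z, hz, ?_⟩
      rw [mem_ball] at hyz ⊢
      calc dist x z ≤ dist x y + dist y z := dist_triangle _ _ _
        _ < r + r := add_lt_add hxy hyz
        _ = 2 * r := by ring
    calc volume (ball b ρ ∩ {x | infDist x K < r})
        ≤ volume (⋃ z ∈ F, ball z (2 * r)) := measure_mono hsub
      _ ≤ ∑ z ∈ F, volume (ball z (2 * r)) := measure_biUnion_finset_le _ _
      _ = ENNReal.ofReal (F.card * ((2 * r) ^ 3 * (Real.pi * 4 / 3))) := by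
          simp only [EuclideanSpace.volume_ball_fin_three]
          have h0 : (0 : ℝ) ≤ 2 * r := by positivity
          rw [Finset.sum_const, nsmul_eq_mul, ENNReal.ofReal_mul (p := (F.card : ℝ)) (by positivity),
            ENNReal.ofReal_natCast, ENNReal.ofReal_mul (p := (2 * r) ^ 3) (by positivity),
            ← ENNReal.ofReal_pow h0]
      _ ≤ ENNReal.ofReal ((140 * N + 5) * ρ ^ 2 * r) := by
          apply ENNReal.ofReal_le_ofReal
          have h1 : ((ρ + r) / r) ^ 2 ≤ 4 * (ρ / r) ^ 2 := by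
            have : (ρ + r) / r ≤ 2 * (ρ / r) := by
              rw [← mul_div_assoc]
              gcongr
              linarith
            calc ((ρ + r) / r) ^ 2 ≤ (2 * (ρ / r)) ^ 2 := by gcongr
              _ = _ := by ring
          have h2 : (F.card : ℝ) ≤ N * (4 * (ρ / r) ^ 2) :=
            hF1.trans (mul_le_mul_of_nonneg_left h1 hN)
          have h3 : (ρ / r) ^ 2 * r ^ 3 = ρ ^ 2 * r := by field_simp
          calc (F.card : ℝ) * ((2 * r) ^ 3 * (Real.pi * 4 / 3))
              ≤ N * (4 * (ρ / r) ^ 2) * ((2 * r) ^ 3 * (Real.pi * 4 / 3)) := by gcongr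
            _ = N * (128 * Real.pi / 3) * ((ρ / r) ^ 2 * r ^ 3) := by ring
            _ = N * (128 * Real.pi / 3) * (ρ ^ 2 * r) := by rw [h3]
            _ ≤ (140 * N + 5) * (ρ ^ 2 * r) := by
                gcongr
                have : 128 * Real.pi / 3 ≤ 140 := by linarith
                nlinarith
            _ = _ := by ring
  · push Not at hrρ
    calc volume (ball b ρ ∩ {x | infDist x K < r}) ≤ volume (ball b ρ) :=
          measure_mono inter_subset_left
      _ = ENNReal.ofReal (ρ ^ 3 * (Real.pi * 4 / 3)) := by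
          rw [EuclideanSpace.volume_ball_fin_three, ENNReal.ofReal_mul (by positivity),
            ← ENNReal.ofReal_pow hρ.le]
      _ ≤ _ := by
          apply ENNReal.ofReal_le_ofReal
          have h1 : ρ ^ 3 ≤ ρ ^ 2 * r := by
            calc ρ ^ 3 = ρ ^ 2 * ρ := by ring
              _ ≤ ρ ^ 2 * r := by gcongr
          have h2 : Real.pi * 4 / 3 ≤ 140 * N + 5 := by linarith
          calc ρ ^ 3 * (Real.pi * 4 / 3) ≤ (ρ ^ 2 * r) * (140 * N + 5) := by gcongr
            _ = _ := by ring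

end Pool.Agent.U562.WV
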