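import Mathlib
set_option autoImplicit false

/-! Project WV (helper562), problem MP_ee74d2_an: local smoothing in `ℝ³` in the full range `p ≥ 3`
for data with singularities along an arbitrary two-dimensional set. Definitions and the statements of
the jobs. -/

open MeasureTheory Set Metric
open scoped ENNReal NNReal FourierTransform RealInnerProductSpace SchwartzMap

namespace Pool.Agent.U562.WV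

abbrev E (n : ℕ) := EuclideanSpace ℝ (Fin n)

/-- surface measure of the unit sphere, as a measure on `ℝ³` -/
noncomputable def sg : Measure (E 3) := ((volume : Measure (E 3)).toSphere).map Subtype.val

/-- Kirchhoff's formula for `cos(t√-Δ) g (x)`: the spherical mean of `g + t ∂_w g` -/
noncomputable def U (g : E 3 → ℂ) (t : ℝ) (x : E 3) : ℂ :=
  (((4 * Real.pi)⁻¹ : ℝ) : ℂ) * ∫ w, (g (x + t • w) + (t : ℂ) * fderiv ℝ g (x + t • w) w) ∂sg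

/-- inverse Fourier transform -/
noncomputable def inv (φ : E 3 → ℂ) (x : E 3) : ℂ :=
  ∫ ξ, Complex.exp (((2 * Real.pi * ⟪x, ξ⟫ : ℝ) : ℂ) * Complex.I) * φ ξ

/-- JOB KIR. Kirchhoff's formula. -/
def S_KIR : Prop := ∀ φ : E 3 → ℂ, Integrable φ → Integrable (fun ξ => (‖ξ‖ : ℂ) * φ ξ) →
  ContDiff ℝ 1 (inv φ) ∧ ∀ (t : ℝ) (x : E 3),
    inv (fun ξ => ((Real.cos (2 * Real.pi * t * ‖ξ‖) : ℝ) : ℂ) * φ ξ) x = U (inv φ) t x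

/-- `C¹`, zero near the origin and far away -/
def Cc (g : E 3 → ℂ) : Prop :=
  ContDiff ℝ 1 g ∧ ∃ r R : ℝ, 0 < r ∧ ∀ x, (‖x‖ ≤ r ∨ R ≤ ‖x‖) → g x = 0

/-- `k(x) = |x|^{-2} g(x/|x|²)` -/
noncomputable def ker (g : E 3 → ℂ) (x : E 3) : ℂ :=
  (((‖x‖ ^ 2)⁻¹ : ℝ) : ℂ) * g ((‖x‖ ^ 2)⁻¹ • x)

/-- JOB KER. The inversion. -/
def S_KER : Prop := ∀ g : E 3 → ℂ, Cc g → Cc (ker g) ∧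
  ∫⁻ x, ‖ker g x‖ₑ ^ 2 = ∫⁻ y, ‖g y‖ₑ ^ 2 / ‖y‖ₑ ^ 2

/-- the point with the coordinates `z.1, z.2, s` in the frame `b` -/
noncomputable def pt (b : Fin 3 → E 3) (s : ℝ) (z : ℝ × ℝ) : E 3 :=
  z.1 • b 0 + z.2 • b 1 + s • b 2

/-- the integral of the normal derivative of `k` over the plane `⟨b 2, x⟩ = s` -/
noncomputable def Q (k : E 3 → ℂ) (b : Fin 3 → E 3) (s : ℝ) : ℂ :=
  ∫ z : ℝ × ℝ, fderiv ℝ k (pt b s z) (b 2)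

/-- JOB CONE (helper562). The solution at the point `(t, t θ)` of the light cone of the origin is the
integral of the normal derivative of `ker g` over a plane. -/
def S_CONE : Prop := ∀ g : E 3 → ℂ, Cc g → ∀ b : Fin 3 → E 3, Orthonormal ℝ b →
  ∀ s : ℝ, 0 < s → U g (1 / (2 * s)) ((1 / (2 * s)) • b 2) =
    -(((s / (2 * Real.pi) : ℝ) : ℂ) * Q (ker g) b s)

/-- JOB SLI. Fourier slice theorem for the normal derivative and Plancherel on the line. -/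
def S_SLI : Prop := ∀ k : E 3 → ℂ, ContDiff ℝ 1 k → HasCompactSupport k →
  ∀ b : Fin 3 → E 3, Orthonormal ℝ b →
    ∫⁻ s : ℝ, ‖Q k b s‖ₑ ^ 2 ≤
      ∫⁻ σ : ℝ, ENNReal.ofReal ((2 * Real.pi * σ) ^ 2) * ‖𝓕 k (σ • b 2)‖ₑ ^ 2

/-- JOB POL. Polar coordinates and Plancherel in `ℝ³`. -/
def S_POL : Prop := ∀ k : E 3 → ℂ, Continuous k → HasCompactSupport k →
  ∫⁻ w, (∫⁻ σ : ℝ, ENNReal.ofReal (σ ^ 2) * ‖𝓕 k (σ • w)‖ₑ ^ 2) ∂sg ≤ 2 * ∫⁻ x, ‖k x‖ₑ ^ 2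

/-- JOB KEY0: `S_KER → S_CONE → S_SLI → S_POL → S_KEY0`. -/
def S_KEY0 : Prop := ∀ g : E 3 → ℂ, Cc g →
  ∫⁻ w, (∫⁻ t in Ioi (0 : ℝ), ‖U g t (t • w)‖ₑ ^ 2) ∂sg ≤ ∫⁻ y, ‖g y‖ₑ ^ 2 / ‖y‖ₑ ^ 2

/-- JOB KEY: `S_KEY0 → S_KEY` (cut-offs near `y` and near infinity, Fatou). -/
def S_KEY : Prop := ∀ g : E 3 → ℂ, ContDiff ℝ 1 g → ∀ (T : ℝ) (y : E 3), 0 < T →
  ∫⁻ w, (∫⁻ t in Ioc 0 T, ‖U g t (y + t • w)‖ₑ ^ 2) ∂sg ≤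
    ∫⁻ z in ball y (2 * T + 2), ‖g z‖ₑ ^ 2 / ‖z - y‖ₑ ^ 2

/-- JOB MAIN, first part: `S_KEY → S_MAIN`. -/
def S_MAIN : Prop := ∀ p : ℝ, 3 ≤ p → ∀ (g : E 3 → ℂ) (F : E 3 → ℝ≥0∞) (δ T : ℝ),
  ContDiff ℝ 1 g → Measurable F → 0 < δ → 0 < T → (∀ y, ‖g y‖ₑ ≤ F y) →
  (∀ y, ENNReal.ofReal δ * ‖fderiv ℝ g y‖ₑ ≤ F y) →
  ∫⁻ t in Ioc 0 T, (∫⁻ x, ‖U g t x‖ₑ ^ p) ≤ ENNReal.ofReal ((1 + T / δ) ^ (p - 2)) *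
    ∫⁻ y, F y ^ (p - 2) * ∫⁻ z in ball y (2 * T + 2), ‖g z‖ₑ ^ 2 / ‖z - y‖ₑ ^ 2

/-- JOB MAIN, second part: `S_TRIV` (no hypothesis). -/
def S_TRIV : Prop := ∀ p : ℝ, 1 ≤ p → ∀ (g : E 3 → ℂ) (F : E 3 → ℝ≥0∞) (δ T : ℝ),
  ContDiff ℝ 1 g → Measurable F → 0 < δ → 0 < T → (∀ y, ‖g y‖ₑ ≤ F y) →
  (∀ y, ENNReal.ofReal δ * ‖fderiv ℝ g y‖ₑ ≤ F y) →
  ∫⁻ t in Ioc 0 T, (∫⁻ x, ‖U g t x‖ₑ ^ p) ≤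
    ENNReal.ofReal (T * (1 + T / δ) ^ p) * ∫⁻ y, F y ^ p

/-- The `r`-neighbourhood of `K` has measure at most `A ρ² r` in every ball of radius `ρ`. -/
def Thin (A : ℝ) (K : Set (E 3)) : Prop :=
  ∀ (b : E 3) (ρ r : ℝ), 0 < ρ → 0 < r →
    volume (ball b ρ ∩ {x | infDist x K < r}) ≤ ENNReal.ofReal (A * ρ ^ 2 * r)

/-- the weight `min (1, δ / dist(y, K))` -/
noncomputable def wt (K : Set (E 3)) (δ : ℝ) (y : E 3) : ℝ≥0∞ :=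
  ENNReal.ofReal (δ / max δ (infDist y K))

/-- JOB SCH. -/
def S_SCH : Prop := ∀ A a : ℝ, 0 ≤ A → 0 < a → a < 1 → ∃ C : ℝ, 0 < C ∧ ∀ K : Set (E 3), Thin A K →
  ∀ (δ R : ℝ) (b : E 3), 0 < δ → 0 < R →
    ∫⁻ y in ball b R, wt K δ y / ‖y - b‖ₑ ^ 2 ≤ ENNReal.ofReal (C * R ^ (1 - a) * δ ^ a)

/-- multiplier `exp(-4π²a|ξ|²)` -/
noncomputable def ht (a : ℝ) (ξ : E 3) : ℂ := ((Real.exp (-(4 * Real.pi ^ 2 * a * ‖ξ‖ ^ 2)) : ℝ) : ℂ)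

/-- JOB PIE, first part: the difference of two heat means at the scale `δ` is small off `K`. -/
def S_PIE : Prop := ∀ p : ℝ, 1 ≤ p → ∃ C : ℝ, 0 < C ∧ ∀ (K : Set (E 3))
  (f : 𝓢(E 3, ℂ)) (δ a b : ℝ), 0 < δ → δ ^ 2 / 4 ≤ a → a ≤ 4 * δ ^ 2 → δ ^ 2 / 4 ≤ b →
    b ≤ 4 * δ ^ 2 → ∃ Ψ : E 3 → ℝ≥0∞, Measurable Ψ ∧
      ∫⁻ y, Ψ y ^ p ≤ ENNReal.ofReal C * ((∫⁻ y, ‖f y‖ₑ ^ p) +
        ∫⁻ y, (ENNReal.ofReal (infDist y K) * ‖fderiv ℝ f y‖ₑ) ^ p) ∧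
      (∀ y, ‖inv (fun ξ => (ht a ξ - ht b ξ) * 𝓕 (f : E 3 → ℂ) ξ) y‖ₑ ≤ wt K δ y * Ψ y) ∧
      ∀ y, ENNReal.ofReal δ * ‖fderiv ℝ (inv fun ξ => (ht a ξ - ht b ξ) * 𝓕 (f : E 3 → ℂ) ξ) y‖ₑ ≤
        wt K δ y * Ψ y

/-- JOB PIE, second part. -/
def S_LOW : Prop := ∀ p : ℝ, 1 ≤ p → ∃ C : ℝ, 0 < C ∧ ∀ (f : 𝓢(E 3, ℂ)) (δ a : ℝ), 0 < δ →
    δ ^ 2 / 4 ≤ a → a ≤ 4 * δ ^ 2 → ∃ Ψ : E 3 → ℝ≥0∞, Measurable Ψ ∧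
      ∫⁻ y, Ψ y ^ p ≤ ENNReal.ofReal C * (∫⁻ y, ‖f y‖ₑ ^ p) ∧
      (∀ y, ‖inv (fun ξ => ht a ξ * 𝓕 (f : E 3 → ℂ) ξ) y‖ₑ ≤ Ψ y) ∧
      ∀ y, ENNReal.ofReal δ * ‖fderiv ℝ (inv fun ξ => ht a ξ * 𝓕 (f : E 3 → ℂ) ξ) y‖ₑ ≤ Ψ y

/-- the norm of the data: `‖f‖_p^p + ‖dist(·, K) ∇f‖_p^p` -/
noncomputable def Nm (K : Set (E 3)) (p : ℝ) (f : E 3 → ℂ) : ℝ≥0∞ :=
  (∫⁻ y, ‖f y‖ₑ ^ p) + ∫⁻ y, (ENNReal.ofReal (infDist y K) * ‖fderiv ℝ f y‖ₑ) ^ p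

/-- JOB PCS: `S_KIR → S_MAIN → S_TRIV → S_SCH → S_PIE → S_LOW → S_PCS`: the estimates for the pieces of
the solution, on the time interval `(0, T]`. -/
def S_PCS : Prop := ∀ A p a : ℝ, 0 ≤ A → 3 ≤ p → 0 < a → a < 1 → ∃ C : ℝ, 0 < C ∧
  ∀ K : Set (E 3), Thin A K → ∀ (f : 𝓢(E 3, ℂ)) (δ T : ℝ), 0 < δ → 0 < T → ∀ u v : ℝ,
    δ ^ 2 / 4 ≤ u → u ≤ 4 * δ ^ 2 → δ ^ 2 / 4 ≤ v → v ≤ 4 * δ ^ 2 →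
    (∫⁻ t in Ioc 0 T, (∫⁻ x, ‖inv (fun ξ => ((Real.cos (2 * Real.pi * t * ‖ξ‖) : ℝ) : ℂ) *
      ((ht u ξ - ht v ξ) * 𝓕 (f : E 3 → ℂ) ξ)) x‖ₑ ^ p) ≤
      ENNReal.ofReal (C * (1 + T / δ) ^ (p - 2) * (1 + T) * δ ^ a) * Nm K p f) ∧
    ∫⁻ t in Ioc 0 T, (∫⁻ x, ‖inv (fun ξ => ((Real.cos (2 * Real.pi * t * ‖ξ‖) : ℝ) : ℂ) *
      (ht u ξ * 𝓕 (f : E 3 → ℂ) ξ)) x‖ₑ ^ p) ≤
      ENNReal.ofReal (C * T * (1 + T / δ) ^ p) * Nm K p f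

/-- the solution with the data `u(0) = (I - Δ)^{-s/2} f₀`, `∂ₜu(0) = (I - Δ)^{(1-s)/2} f₁` -/
noncomputable def wave (s : ℝ) (f₀ f₁ : 𝓢(E 3, ℂ)) (t : ℝ) (x : E 3) : ℂ :=
  inv (fun ξ =>
    (((Real.cos (2 * Real.pi * t * ‖ξ‖)) * (1 + 4 * Real.pi ^ 2 * ‖ξ‖ ^ 2) ^ (-s / 2) : ℝ) : ℂ) *
      𝓕 (f₀ : E 3 → ℂ) ξ +
    (((Real.sin (2 * Real.pi * t * ‖ξ‖)) / (2 * Real.pi * ‖ξ‖) *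
      (1 + 4 * Real.pi ^ 2 * ‖ξ‖ ^ 2) ^ ((1 - s) / 2) : ℝ) : ℂ) * 𝓕 (f₁ : E 3 → ℂ) ξ) x

/-- JOB COS: `S_PCS → S_COS`. -/
def S_COS : Prop := ∀ A p s : ℝ, 0 ≤ A → 3 ≤ p → 1 - 3 / p < s → ∃ C : ℝ, 0 < C ∧
  ∀ K : Set (E 3), Thin A K → ∀ f : 𝓢(E 3, ℂ),
    ∫⁻ t in Icc (0 : ℝ) 2, (∫⁻ x, ‖wave s f 0 t x‖ₑ ^ p) ≤ ENNReal.ofReal C * Nm K p f

/-- JOB SIN: `S_PCS → S_SIN`. -/
def S_SIN : Prop := ∀ A p s : ℝ, 0 ≤ A → 3 ≤ p → 1 - 3 / p < s → ∃ C : ℝ, 0 < C ∧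
  ∀ K : Set (E 3), Thin A K → ∀ f : 𝓢(E 3, ℂ),
    ∫⁻ t in Icc (0 : ℝ) 2, (∫⁻ x, ‖wave s 0 f t x‖ₑ ^ p) ≤ ENNReal.ofReal C * Nm K p f

end Pool.Agent.U562.WV
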