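import Pool.Agent.U128.WV.PCS
set_option autoImplicit false

/-! The bilinear estimate for a general weight (after `U128.WV.PCS.bil` by helper128). -/

open MeasureTheory Set Metric
open scoped ENNReal NNReal

namespace Pool.Agent.U562.WV

open Pool.Agent.U128.WV.PCS (key_pt)

lemma bil_gen {w : E 3 → ℝ≥0∞} (hwm : Measurable w) (hw1 : ∀ y, w y ≤ 1) {R : ℝ} {D : ℝ≥0∞}
    (hbd : ∀ b : E 3, ∫⁻ y in ball b R, w y / ‖y - b‖ₑ ^ 2 ≤ D) {p : ℝ} (hp : 3 ≤ p)
    (g : E 3 → ℂ) (Ψ : E 3 → ℝ≥0∞) (hΨ : Measurable Ψ) (hg : ∀ y, ‖g y‖ₑ ≤ w y * Ψ y) :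
    ∫⁻ y, (w y * Ψ y) ^ (p - 2) * ∫⁻ z in ball y R, ‖g z‖ₑ ^ 2 / ‖z - y‖ₑ ^ 2 ≤
      2 * D * ∫⁻ y, Ψ y ^ p := by
  set G1 : E 3 → E 3 → ℝ≥0∞ := fun y z =>
    Ψ y ^ p * (ball y R).indicator (fun z => w z / ‖z - y‖ₑ ^ 2) z with hG1
  set G2 : E 3 → E 3 → ℝ≥0∞ := fun y z =>
    Ψ z ^ p * (ball z R).indicator (fun y => w y / ‖y - z‖ₑ ^ 2) y with hG2
  have hset : MeasurableSet {q : E 3 × E 3 | dist q.2 q.1 < R} :=
    (isOpen_lt (continuous_snd.dist continuous_fst) continuous_const).measurableSet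
  have hk : Measurable (fun q : E 3 × E 3 =>
      {q : E 3 × E 3 | dist q.2 q.1 < R}.indicator
        (fun q => w q.2 / ‖q.2 - q.1‖ₑ ^ 2) q) := by
    apply Measurable.indicator _ hset
    exact (hwm.comp measurable_snd).div ((measurable_snd.sub measurable_fst).enorm.pow_const 2)
  have hG1m : Measurable (fun q : E 3 × E 3 => G1 q.1 q.2) := by
    have h : (fun q : E 3 × E 3 => G1 q.1 q.2) = fun q : E 3 × E 3 => Ψ q.1 ^ p *
        {q : E 3 × E 3 | dist q.2 q.1 < R}.indicator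
        (fun q => w q.2 / ‖q.2 - q.1‖ₑ ^ 2) q := by
      funext q
      simp only [hG1, indicator, mem_ball, mem_ofPred_eq]
    rw [h]
    exact ((hΨ.comp measurable_fst).pow_const p).mul hk
  have hG2m : Measurable (fun q : E 3 × E 3 => G2 q.1 q.2) := by
    have h : (fun q : E 3 × E 3 => G2 q.1 q.2) = fun q : E 3 × E 3 => G1 q.2 q.1 := by
      funext q; rfl
    rw [h]
    exact hG1m.comp measurable_swap
  have hI1 : ∫⁻ y, ∫⁻ z, G1 y z ≤ D * ∫⁻ y, Ψ y ^ p := by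
    rw [← lintegral_const_mul _ (hΨ.pow_const p)]
    apply lintegral_mono
    intro y
    simp only [hG1]
    rw [lintegral_const_mul _ (by
      apply Measurable.indicator _ measurableSet_ball
      exact hwm.div ((measurable_id.sub_const y).enorm.pow_const 2)),
      lintegral_indicator measurableSet_ball, mul_comm]
    gcongr
    exact hbd y
  have hI2 : ∫⁻ y, ∫⁻ z, G2 y z = ∫⁻ y, ∫⁻ z, G1 y z := by
    rw [lintegral_lintegral_swap hG2m.aemeasurable]
  calc ∫⁻ y, (w y * Ψ y) ^ (p - 2) * ∫⁻ z in ball y R, ‖g z‖ₑ ^ 2 / ‖z - y‖ₑ ^ 2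
      ≤ ∫⁻ y, ∫⁻ z, (G1 y z + G2 y z) := by
        apply lintegral_mono
        intro y
        simp only
        rw [← lintegral_indicator measurableSet_ball]
        refine (lintegral_const_mul_le _ _).trans ?_
        apply lintegral_mono
        intro z
        simp only [hG1, hG2]
        by_cases hz : z ∈ ball y R
        · have hz' : y ∈ ball z R := mem_ball_comm.mp hz
          rw [indicator_of_mem hz, indicator_of_mem hz, indicator_of_mem hz']
          have hnn : ‖y - z‖ₑ = ‖z - y‖ₑ := enorm_sub_rev y z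
          rw [hnn]
          exact key_pt (w y) (w z) (Ψ y) (Ψ z) ‖g z‖ₑ (‖z - y‖ₑ ^ 2) hp (hw1 y) (hw1 z) (hg z)
        · rw [indicator_of_notMem hz]
          simp
    _ = ∫⁻ y, ((∫⁻ z, G1 y z) + ∫⁻ z, G2 y z) := by
        apply lintegral_congr
        intro y
        exact lintegral_add_left (hG1m.comp measurable_prodMk_left) _
    _ = (∫⁻ y, ∫⁻ z, G1 y z) + ∫⁻ y, ∫⁻ z, G2 y z :=
        lintegral_add_left hG1m.lintegral_prod_right' _
    _ ≤ D * (∫⁻ y, Ψ y ^ p) + D * ∫⁻ y, Ψ y ^ p := by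
        rw [hI2]
        gcongr
    _ = 2 * D * ∫⁻ y, Ψ y ^ p := by ring

end Pool.Agent.U562.WV
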