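import Pool.Agent.U562.WV.Stm
set_option autoImplicit false

/-! The derivative of `ker g`. -/

open MeasureTheory Set Metric
open scoped ENNReal NNReal FourierTransform RealInnerProductSpace

namespace Pool.Agent.U562.WV

/-- derivative of `ker g` at `x ≠ 0` -/
lemma ker_fderiv {g : E 3 → ℂ} (hg : ContDiff ℝ 1 g) {x : E 3} (hx : x ≠ 0) (v : E 3) :
    fderiv ℝ (ker g) x v = ((-(2 * ⟪x, v⟫ * ((‖x‖ ^ 2)⁻¹) ^ 2) : ℝ) : ℂ) * g ((‖x‖ ^ 2)⁻¹ • x) +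
      (((‖x‖ ^ 2)⁻¹ : ℝ) : ℂ) * fderiv ℝ g ((‖x‖ ^ 2)⁻¹ • x)
        ((‖x‖ ^ 2)⁻¹ • v + (-(2 * ⟪x, v⟫ * ((‖x‖ ^ 2)⁻¹) ^ 2)) • x) := by
  have hn : ‖x‖ ^ 2 ≠ 0 := by
    have := norm_pos_iff.mpr hx
    positivity
  have h1 : HasFDerivAt (fun y : E 3 => ‖y‖ ^ 2) (2 • innerSL ℝ x) x :=
    (hasStrictFDerivAt_norm_sq x).hasFDerivAt
  have h2 : HasFDerivAt (fun y : E 3 => (‖y‖ ^ 2)⁻¹) (-((‖x‖ ^ 2) ^ 2)⁻¹ • (2 • innerSL ℝ x)) x := by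
    have := (hasDerivAt_inv hn).comp_hasFDerivAt x h1
    exact this
  have h3 : HasFDerivAt (fun y : E 3 => (‖y‖ ^ 2)⁻¹ • y)
      ((‖x‖ ^ 2)⁻¹ • (ContinuousLinearMap.id ℝ (E 3)) +
        (-((‖x‖ ^ 2) ^ 2)⁻¹ • (2 • innerSL ℝ x)).smulRight x) x :=
    h2.smul (hasFDerivAt_id x)
  have h4 : HasFDerivAt g (fderiv ℝ g ((‖x‖ ^ 2)⁻¹ • x)) ((‖x‖ ^ 2)⁻¹ • x) :=
    (hg.differentiable (by norm_num) _).hasFDerivAt
  have h5 := HasFDerivAt.comp (f := fun y : E 3 => (‖y‖ ^ 2)⁻¹ • y) x h4 h3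
  have h6 := h2.smul h5
  have e : ker g = (fun y : E 3 => (‖y‖ ^ 2)⁻¹) • (g ∘ fun y : E 3 => (‖y‖ ^ 2)⁻¹ • y) := by
    funext y
    unfold ker
    simp [Complex.real_smul]
  rw [e, h6.fderiv]
  simp only [ContinuousLinearMap.add_apply, ContinuousLinearMap.smul_apply,
    ContinuousLinearMap.comp_apply, ContinuousLinearMap.smulRight_apply,
    ContinuousLinearMap.id_apply, innerSL_apply_apply, Function.comp_apply, Complex.real_smul,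
    smul_eq_mul, nsmul_eq_mul]
  rw [add_comm]
  congr 1
  · congr 1
    congr 1
    push_cast
    rw [inv_pow]
    ring
  · congr 2
    congr 1
    congr 1
    push_cast
    rw [inv_pow]
    ring

end Pool.Agent.U562.WV
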