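import Pool.Agent.U562.WV.Ster
import Pool.Agent.U562.WV.KerD
set_option autoImplicit false

/-! The trace of the solution on a light cone is a Radon transform: job CONE. -/

open MeasureTheory Set Metric
open scoped ENNReal NNReal FourierTransform RealInnerProductSpace

namespace Pool.Agent.U562.WV

open Pool.Agent.K7.H98.GMC.Arch (polar rho rho_meas rho_int toSphere_univ)

lemma sg_lintegral (G : E 3 → ℝ≥0∞) (hG : Measurable G) :
    ∫⁻ w, G w ∂sg = ∫⁻ s : sphere (0 : E 3) 1, G (s : E 3) ∂((volume : Measure (E 3)).toSphere) := by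
  unfold sg
  rw [lintegral_map hG measurable_subtype_coe]

lemma sg_polar (G : E 3 → ℝ≥0∞) (hG : Measurable G) :
    ∫⁻ x : E 3, G (‖x‖⁻¹ • x) * rho ‖x‖ = (∫⁻ w, G w ∂sg) * ENNReal.ofReal (1 / 3) := by
  rw [sg_lintegral G hG, ← rho_int]
  exact polar G hG rho rho_meas

lemma sg_iso (Λ : E 3 ≃ₗᵢ[ℝ] E 3) (G : E 3 → ℝ≥0∞) (hG : Measurable G) :
    ∫⁻ w, G (Λ w) ∂sg = ∫⁻ w, G w ∂sg := by
  have h1 := sg_polar G hG
  have h2 := sg_polar (fun w => G (Λ w)) (hG.comp Λ.continuous.measurable)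
  have h3 : ∫⁻ x : E 3, G (Λ (‖x‖⁻¹ • x)) * rho ‖x‖ = ∫⁻ x : E 3, G (‖x‖⁻¹ • x) * rho ‖x‖ := by
    have h4 := Λ.measurePreserving.lintegral_comp_emb Λ.toHomeomorph.measurableEmbedding
      (fun x : E 3 => G (‖x‖⁻¹ • x) * rho ‖x‖)
    rw [← h4]
    refine lintegral_congr fun x => ?_
    rw [LinearIsometryEquiv.norm_map, map_smul]
  rw [h3, h1] at h2
  exact ((ENNReal.mul_left_inj (by simp) ENNReal.ofReal_ne_top).1 h2).symm

lemma sg_univ : sg univ = ENNReal.ofReal (4 * Real.pi) := by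
  unfold sg
  rw [Measure.map_apply measurable_subtype_coe MeasurableSet.univ, preimage_univ]
  exact toSphere_univ

instance sg_fin : IsFiniteMeasure sg := ⟨by rw [sg_univ]; exact ENNReal.ofReal_lt_top⟩

lemma sg_norm : ∀ᵐ w ∂sg, ‖w‖ = 1 := by
  unfold sg
  rw [ae_map_iff measurable_subtype_coe.aemeasurable
    (measurableSet_eq_fun measurable_norm measurable_const)]
  exact Filter.Eventually.of_forall fun s => mem_sphere_zero_iff_norm.mp s.2

/-- the isometry to an orthonormal basis -/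
lemma iso3 {b : Fin 3 → E 3} (hb : Orthonormal ℝ b) :
    ∃ Λ : E 3 ≃ₗᵢ[ℝ] E 3, ∀ x : E 3, Λ x = x 0 • b 0 + x 1 • b 1 + x 2 • b 2 := by
  have hcard : Fintype.card (Fin 3) = Module.finrank ℝ (E 3) := by simp
  let B : OrthonormalBasis (Fin 3) ℝ (E 3) :=
    OrthonormalBasis.mk hb (by
      have h := (basisOfOrthonormalOfCardEqFinrank hb hcard).span_eq
      rw [coe_basisOfOrthonormalOfCardEqFinrank] at h
      exact h.ge)
  refine ⟨B.repr.symm, fun x => ?_⟩
  have h1 := B.sum_repr_symm x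
  rw [← h1, Fin.sum_univ_three]
  simp [B]

lemma rs_cont {s : ℝ} (hs : 0 < s) : Continuous (rs s) := by
  unfold rs
  refine Continuous.div (by fun_prop) (by fun_prop) fun z => ?_
  positivity

lemma rs_nonneg (s : ℝ) (z : ℝ × ℝ) : 0 ≤ rs s z := by unfold rs; positivity

lemma oms_cont (b : Fin 3 → E 3) {s : ℝ} (hs : 0 < s) : Continuous (oms b s) := by
  unfold oms pt
  have h : Continuous fun z : ℝ × ℝ => 2 * s / (s ^ 2 + z.1 ^ 2 + z.2 ^ 2) :=
    Continuous.div (by fun_prop) (by fun_prop) fun z => by positivity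
  fun_prop

lemma ster {b : Fin 3 → E 3} (hb : Orthonormal ℝ b) {s : ℝ} (hs : 0 < s) (G : E 3 → ℝ≥0∞)
    (hG : Measurable G) : ∫⁻ w, G w ∂sg =
    ∫⁻ z : ℝ × ℝ, ENNReal.ofReal (rs s z) * G (oms b s z) := by
  obtain ⟨Λ, hΛ⟩ := iso3 hb
  rw [← sg_iso Λ G hG, ster0 hs (fun w => G (Λ w)) (hG.comp Λ.continuous.measurable)]
  refine lintegral_congr fun z => ?_
  congr 2
  have h1 : Λ (ee 2) = b 2 := by rw [hΛ]; simp [ee]
  have h2 : Λ (pt ee s z) = pt b s z := by
    rw [hΛ]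
    simp [pt, ee]
  unfold oms
  rw [map_sub, map_smul, h1, h2]

lemma ster_measure {b : Fin 3 → E 3} (hb : Orthonormal ℝ b) {s : ℝ} (hs : 0 < s) :
    sg = ((volume : Measure (ℝ × ℝ)).withDensity fun z => ENNReal.ofReal (rs s z)).map
      (oms b s) := by
  refine Measure.ext_of_lintegral _ fun G hG => ?_
  rw [ster hb hs G hG, lintegral_map hG (oms_cont b hs).measurable,
    lintegral_withDensity_eq_lintegral_mul _ (rs_cont hs).measurable.ennreal_ofReal
      (show Measurable fun z => G (oms b s z) from hG.comp (oms_cont b hs).measurable)]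
  rfl

lemma ster_int {b : Fin 3 → E 3} (hb : Orthonormal ℝ b) {s : ℝ} (hs : 0 < s) (Φ : E 3 → ℂ)
    (hΦ : Continuous Φ) : ∫ w, Φ w ∂sg = ∫ z : ℝ × ℝ, ((rs s z : ℝ) : ℂ) * Φ (oms b s z) := by
  rw [ster_measure hb hs, integral_map (oms_cont b hs).measurable.aemeasurable
    hΦ.aestronglyMeasurable, integral_withDensity_eq_integral_toReal_smul
    (rs_cont hs).measurable.ennreal_ofReal (Filter.Eventually.of_forall fun _ =>
      ENNReal.ofReal_lt_top)]
  congr 1
  funext z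
  rw [ENNReal.toReal_ofReal (rs_nonneg s z), Complex.real_smul]

lemma pt_norm {b : Fin 3 → E 3} (hb : Orthonormal ℝ b) (s : ℝ) (z : ℝ × ℝ) :
    ‖pt b s z‖ ^ 2 = s ^ 2 + z.1 ^ 2 + z.2 ^ 2 := by
  obtain ⟨Λ, hΛ⟩ := iso3 hb
  have h : pt b s z = Λ (!₂[z.1, z.2, s] : E 3) := by
    rw [hΛ]; simp [pt]
  rw [h, LinearIsometryEquiv.norm_map, EuclideanSpace.norm_eq, Real.sq_sqrt (by positivity)]
  simp [Fin.sum_univ_three]
  ring

lemma pt_inner {b : Fin 3 → E 3} (hb : Orthonormal ℝ b) (s : ℝ) (z : ℝ × ℝ) :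
    (⟪pt b s z, b 2⟫ : ℝ) = s := by
  unfold pt
  have h0 : (⟪b 0, b 2⟫ : ℝ) = 0 := hb.2 (by decide)
  have h1 : (⟪b 1, b 2⟫ : ℝ) = 0 := hb.2 (by decide)
  have h2 : (⟪b 2, b 2⟫ : ℝ) = 1 := by rw [real_inner_self_eq_norm_sq, hb.1 2]; norm_num
  rw [inner_add_left, inner_add_left, real_inner_smul_left, real_inner_smul_left,
    real_inner_smul_left, h0, h1, h2]
  ring

/-- the function under the integral in Kirchhoff's formula is continuous -/
lemma kir_cont {g : E 3 → ℂ} (hg : ContDiff ℝ 1 g) (t : ℝ) (x : E 3) :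
    Continuous fun w : E 3 => g (x + t • w) + (t : ℂ) * fderiv ℝ g (x + t • w) w := by
  have h1 : Continuous fun w : E 3 => g (x + t • w) := hg.continuous.comp (by fun_prop)
  have h2 : Continuous fun w : E 3 => fderiv ℝ g (x + t • w) :=
    (hg.continuous_fderiv (by norm_num)).comp (by fun_prop)
  have h3 : Continuous fun w : E 3 => fderiv ℝ g (x + t • w) w := h2.clm_apply continuous_id
  fun_prop

theorem t_CONE : S_CONE := by
  intro g hg b hb s hs
  have hg1 := hg.1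
  unfold U
  rw [ster_int hb hs _ (kir_cont hg1 _ _)]
  unfold Q
  have key : ∀ z : ℝ × ℝ, ((rs s z : ℝ) : ℂ) *
      (g ((1 / (2 * s)) • b 2 + (1 / (2 * s)) • oms b s z) + ((1 / (2 * s) : ℝ) : ℂ) *
        fderiv ℝ g ((1 / (2 * s)) • b 2 + (1 / (2 * s)) • oms b s z) (oms b s z)) =
      (-(2 * s : ℝ) : ℂ) * fderiv ℝ (ker g) (pt b s z) (b 2) := by
    intro z
    have hN := pt_norm hb s z
    have hNpos : 0 < ‖pt b s z‖ ^ 2 := by rw [hN]; positivity
    have hx : pt b s z ≠ 0 := by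
      intro h
      rw [h, norm_zero] at hNpos
      simp at hNpos
    have hy : (1 / (2 * s)) • b 2 + (1 / (2 * s)) • oms b s z =
        (‖pt b s z‖ ^ 2)⁻¹ • pt b s z := by
      unfold oms
      rw [← smul_add, add_comm (b 2), sub_add_cancel, smul_smul, hN]
      congr 1
      field_simp
    have hv : (‖pt b s z‖ ^ 2)⁻¹ • b 2 + (-(2 * ⟪pt b s z, b 2⟫ * ((‖pt b s z‖ ^ 2)⁻¹) ^ 2)) •
        pt b s z = (-(‖pt b s z‖ ^ 2)⁻¹) • oms b s z := by
      unfold oms
      rw [pt_inner hb, ← hN, smul_sub, smul_smul, neg_smul _ (b 2), sub_neg_eq_add, add_comm]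
      congr 2
      rw [div_eq_mul_inv]
      ring
    have hrs : rs s z = 4 * s ^ 2 * ((‖pt b s z‖ ^ 2)⁻¹) ^ 2 := by
      unfold rs
      rw [hN, inv_pow, div_eq_mul_inv]
    rw [ker_fderiv hg1 hx, hv, hy, hrs, pt_inner hb, map_smul, Complex.real_smul]
    push_cast
    have hs' : (s : ℂ) ≠ 0 := by exact_mod_cast hs.ne'
    field_simp
    ring
  simp_rw [key]
  rw [integral_const_mul]
  push_cast
  have hpi : (Real.pi : ℂ) ≠ 0 := by exact_mod_cast Real.pi_ne_zero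
  field_simp
  ring

end Pool.Agent.U562.WV
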