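import Pool.Agent.U688.WV.SIN
import Pool.Agent.U776.WV.COS
import Pool.Agent.U770.WV.MAIN
import Pool.Agent.U473.WV.KEY
import Pool.Agent.U186.WV.KEY0
import Pool.Agent.U685.WV.KER
import Pool.Agent.U562.WV.Cone
import Pool.Agent.U147.WV.SLI
import Pool.Agent.U2.WV.POL
import Pool.Agent.U480.WV.Kir
import Pool.Agent.U128.WV.PCS
import Pool.Agent.U88.WV.PIE
import Pool.Agent.U260.WV.SCH
set_option autoImplicit false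

/-! Assembly of project WV. -/

open MeasureTheory Set Metric
open scoped ENNReal NNReal FourierTransform RealInnerProductSpace SchwartzMap

namespace Pool.Agent.U562.WV

theorem a_KEY : S_KEY := Pool.Agent.U473.WV.KEY.t_KEY
  (Pool.Agent.U186.WV.t_KEY0 Pool.Agent.U685.WV.t_KER t_CONE Pool.Agent.U147.WV.t_SLI
    Pool.Agent.U2.WV.POL.t_POL)

theorem a_MAIN : S_MAIN := Pool.Agent.U770.WV.t_MAIN a_KEY

theorem a_PCS : S_PCS := Pool.Agent.U128.WV.PCS.t_PCS Pool.Agent.U480.WV.t_KIR a_MAIN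
  Pool.Agent.U770.WV.t_TRIV Pool.Agent.U260.WV.t_SCH Pool.Agent.U88.WV.PIE.t_PIE
  Pool.Agent.U88.WV.PIE.t_LOW

theorem a_COS : S_COS := Pool.Agent.U776.WV.t_COS a_PCS

theorem a_SIN : S_SIN := Pool.Agent.U688.WV.t_SIN a_PCS a_COS

lemma four0 : 𝓕 ((0 : 𝓢(E 3, ℂ)) : E 3 → ℂ) = fun _ => 0 := Pool.Agent.U688.WV.four_zero

/-- integrability of the first part -/
lemma int0 {s : ℝ} (hs : 0 ≤ s) (f : 𝓢(E 3, ℂ)) (t : ℝ) : Integrable fun ξ : E 3 =>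
    (((Real.cos (2 * Real.pi * t * ‖ξ‖)) * (1 + 4 * Real.pi ^ 2 * ‖ξ‖ ^ 2) ^ (-s / 2) : ℝ) : ℂ) *
      𝓕 (f : E 3 → ℂ) ξ := by
  refine (Pool.Agent.U688.WV.G_int f).bdd_mul (c := 1) ?_ (Filter.Eventually.of_forall fun ξ => ?_)
  · apply Continuous.aestronglyMeasurable
    apply Complex.continuous_ofReal.comp
    have h1 : Continuous fun ξ : E 3 => (1 + 4 * Real.pi ^ 2 * ‖ξ‖ ^ 2) ^ (-s / 2) := by
      apply Continuous.rpow_const (by fun_prop)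
      intro ξ
      left
      positivity
    exact (by fun_prop : Continuous fun ξ : E 3 => Real.cos (2 * Real.pi * t * ‖ξ‖)).mul h1
  · rw [Complex.norm_real, norm_mul]
    have h1 : ‖Real.cos (2 * Real.pi * t * ‖ξ‖)‖ ≤ 1 := Real.abs_cos_le_one _
    have h2 : ‖(1 + 4 * Real.pi ^ 2 * ‖ξ‖ ^ 2 : ℝ) ^ (-s / 2)‖ ≤ 1 := by
      rw [Real.norm_of_nonneg (by positivity)]
      apply Real.rpow_le_one_of_one_le_of_nonpos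
      · have : 0 ≤ 4 * Real.pi ^ 2 * ‖ξ‖ ^ 2 := by positivity
        linarith
      · linarith
    calc _ ≤ 1 * (1 : ℝ) := by gcongr
      _ = 1 := one_mul 1

lemma sinc_le (t r : ℝ) (hr : 0 ≤ r) :
    |Real.sin (2 * Real.pi * t * r) / (2 * Real.pi * r)| ≤ |t| := by
  rcases hr.eq_or_lt with h | h
  · rw [← h]
    simp
  · rw [abs_div, abs_of_pos (by positivity : 0 < 2 * Real.pi * r), div_le_iff₀ (by positivity)]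
    calc |Real.sin (2 * Real.pi * t * r)| ≤ |2 * Real.pi * t * r| := Real.abs_sin_le_abs
      _ = |t| * (2 * Real.pi * r) := by
        rw [abs_mul, abs_mul, abs_of_pos (by positivity : 0 < 2 * Real.pi), abs_of_pos h]
        ring

/-- integrability of the second part -/
lemma int1 {s : ℝ} (hs : 0 ≤ s) (f : 𝓢(E 3, ℂ)) (t : ℝ) : Integrable fun ξ : E 3 =>
    (((Real.sin (2 * Real.pi * t * ‖ξ‖)) / (2 * Real.pi * ‖ξ‖) *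
      (1 + 4 * Real.pi ^ 2 * ‖ξ‖ ^ 2) ^ ((1 - s) / 2) : ℝ) : ℂ) * 𝓕 (f : E 3 → ℂ) ξ := by
  have h0 : Integrable fun ξ : E 3 => |t| * (‖𝓕 (f : E 3 → ℂ) ξ‖ +
      4 * Real.pi ^ 2 * (‖ξ‖ ^ 2 * ‖𝓕 (f : E 3 → ℂ) ξ‖)) := by
    have h1 := ((𝓕 f : 𝓢(E 3, ℂ)).integrable_pow_mul volume 2)
    rw [SchwartzMap.fourier_coe] at h1
    exact ((Pool.Agent.U688.WV.G_int f).norm.add (h1.const_mul _)).const_mul _
  refine h0.mono' ?_ (Filter.Eventually.of_forall fun ξ => ?_)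
  · apply Measurable.aestronglyMeasurable
    refine Measurable.mul ?_ (Pool.Agent.U688.WV.G_cont f).measurable
    apply Complex.measurable_ofReal.comp
    refine Measurable.mul ?_ ?_
    · exact Measurable.div (by fun_prop) (by fun_prop)
    · exact Measurable.pow_const (by fun_prop) _
  · rw [norm_mul, Complex.norm_real, norm_mul, Real.norm_eq_abs]
    have h1 := sinc_le t ‖ξ‖ (norm_nonneg _)
    have h2 : ‖(1 + 4 * Real.pi ^ 2 * ‖ξ‖ ^ 2 : ℝ) ^ ((1 - s) / 2)‖ ≤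
        1 + 4 * Real.pi ^ 2 * ‖ξ‖ ^ 2 := by
      rw [Real.norm_of_nonneg (by positivity)]
      have hb : (1 : ℝ) ≤ 1 + 4 * Real.pi ^ 2 * ‖ξ‖ ^ 2 := by
        have : 0 ≤ 4 * Real.pi ^ 2 * ‖ξ‖ ^ 2 := by positivity
        linarith
      calc (1 + 4 * Real.pi ^ 2 * ‖ξ‖ ^ 2 : ℝ) ^ ((1 - s) / 2)
          ≤ (1 + 4 * Real.pi ^ 2 * ‖ξ‖ ^ 2 : ℝ) ^ (1 : ℝ) :=
            Real.rpow_le_rpow_of_exponent_le hb (by linarith)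
        _ = _ := Real.rpow_one _
    calc _ ≤ |t| * (1 + 4 * Real.pi ^ 2 * ‖ξ‖ ^ 2) * ‖𝓕 (f : E 3 → ℂ) ξ‖ := by gcongr
      _ = _ := by ring

lemma wave_add {s : ℝ} (hs : 0 ≤ s) (f₀ f₁ : 𝓢(E 3, ℂ)) (t : ℝ) (x : E 3) :
    wave s f₀ f₁ t x = wave s f₀ 0 t x + wave s 0 f₁ t x := by
  unfold wave
  rw [four0]
  simp only [mul_zero, add_zero, zero_add]
  exact Pool.Agent.U688.WV.inv_add _ _ (int0 hs f₀ t) (int1 hs f₁ t) x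

lemma wave_meas (s : ℝ) (f : 𝓢(E 3, ℂ)) :
    Measurable fun w : ℝ × E 3 => ‖wave s f 0 w.1 w.2‖ₑ := by
  have := Pool.Agent.U688.WV.W_meas (s - 1) f
  simpa using this

lemma split_meas {X Y : ℝ → E 3 → ℝ≥0∞} (hX : Measurable fun w : ℝ × E 3 => X w.1 w.2)
    (S : Set ℝ) (k : ℝ≥0∞) (hk : k ≠ ∞) :
    ∫⁻ t in S, (∫⁻ x, k * (X t x + Y t x)) =
      k * ((∫⁻ t in S, ∫⁻ x, X t x) + ∫⁻ t in S, ∫⁻ x, Y t x) := by
  have hm1 : Measurable fun t : ℝ => ∫⁻ x, X t x := hX.lintegral_prod_right'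
  rw [← lintegral_add_left hm1, ← lintegral_const_mul' _ _ hk]
  refine lintegral_congr fun t => ?_
  have hmt : Measurable fun x => X t x := hX.comp measurable_prodMk_left
  rw [lintegral_const_mul' _ _ hk, lintegral_add_left hmt]

lemma two_pow {p : ℝ} (hp : 1 ≤ p) (a b : ℝ≥0∞) :
    (a + b) ^ p ≤ ENNReal.ofReal (2 ^ (p - 1)) * (a ^ p + b ^ p) := by
  rw [← ENNReal.ofReal_rpow_of_nonneg (by norm_num) (by linarith), ENNReal.ofReal_ofNat]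
  exact ENNReal.rpow_add_le_mul_rpow_add_rpow _ _ hp

lemma comb (k c₀ c₁ : ℝ) (hk : 0 ≤ k) (A B N₀ N₁ : ℝ≥0∞) (hA : A ≤ ENNReal.ofReal c₀ * N₀)
    (hB : B ≤ ENNReal.ofReal c₁ * N₁) :
    ENNReal.ofReal k * (A + B) ≤ ENNReal.ofReal (k * max c₀ c₁) * (N₀ + N₁) := by
  calc ENNReal.ofReal k * (A + B)
      ≤ ENNReal.ofReal k * (ENNReal.ofReal (max c₀ c₁) * N₀ + ENNReal.ofReal (max c₀ c₁) * N₁) := by
        gcongr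
        · refine hA.trans ?_
          gcongr
          exact le_max_left _ _
        · refine hB.trans ?_
          gcongr
          exact le_max_right _ _
    _ = _ := by rw [← mul_add, ← mul_assoc, ENNReal.ofReal_mul hk]

theorem wv_main {A p s : ℝ} (hA : 0 ≤ A) (hp : 3 ≤ p) (hs : 1 - 3 / p < s) : ∃ C : ℝ, 0 < C ∧
    ∀ K₀ K₁ : Set (E 3), Thin A K₀ → Thin A K₁ → ∀ f₀ f₁ : 𝓢(E 3, ℂ),
      ∫⁻ t in Icc (0 : ℝ) 2, (∫⁻ x, ‖wave s f₀ f₁ t x‖ₑ ^ p) ≤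
        ENNReal.ofReal C * (Nm K₀ p f₀ + Nm K₁ p f₁) := by
  obtain ⟨C₀, hC₀, h0⟩ := a_COS A p s hA hp hs
  obtain ⟨C₁, hC₁, h1⟩ := a_SIN A p s hA hp hs
  have hp0 : 0 < p := by linarith
  have hs0 : 0 ≤ s := by
    have : 3 / p ≤ 1 := by rw [div_le_one hp0]; exact hp
    linarith
  have hk0 : (0 : ℝ) < 2 ^ (p - 1) := by positivity
  have hC : 0 < max C₀ C₁ := lt_max_of_lt_left hC₀
  refine ⟨2 ^ (p - 1) * max C₀ C₁, mul_pos hk0 hC, ?_⟩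
  intro K₀ K₁ hK₀ hK₁ f₀ f₁
  have hm : Measurable fun w : ℝ × E 3 => ‖wave s f₀ 0 w.1 w.2‖ₑ ^ p := (wave_meas s f₀).pow_const p
  have h3 : ∫⁻ t in Icc (0 : ℝ) 2, (∫⁻ x, ‖wave s f₀ f₁ t x‖ₑ ^ p) ≤
      ∫⁻ t in Icc (0 : ℝ) 2, (∫⁻ x, ENNReal.ofReal (2 ^ (p - 1)) *
          (‖wave s f₀ 0 t x‖ₑ ^ p + ‖wave s 0 f₁ t x‖ₑ ^ p)) := by
    refine lintegral_mono fun t => lintegral_mono fun x => ?_
    simp only
    rw [wave_add hs0]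
    refine le_trans ?_ (two_pow (by linarith) _ _)
    exact ENNReal.rpow_le_rpow (enorm_add_le _ _) hp0.le
  refine h3.trans ?_
  have h4 := split_meas (X := fun t x => ‖wave s f₀ 0 t x‖ₑ ^ p)
    (Y := fun t x => ‖wave s 0 f₁ t x‖ₑ ^ p) hm (Icc (0 : ℝ) 2) (ENNReal.ofReal (2 ^ (p - 1)))
    ENNReal.ofReal_ne_top
  rw [h4]
  exact comb _ _ _ hk0.le _ _ _ _ (h0 K₀ hK₀ f₀) (h1 K₁ hK₁ f₁)

/-! ### Bessel potentials -/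

/-- the solution with the Cauchy data `u₀, u₁` -/
noncomputable def cau (u₀ u₁ : E 3 → ℂ) (t : ℝ) (x : E 3) : ℂ :=
  inv (fun ξ => ((Real.cos (2 * Real.pi * t * ‖ξ‖) : ℝ) : ℂ) * 𝓕 u₀ ξ +
    ((Real.sin (2 * Real.pi * t * ‖ξ‖) / (2 * Real.pi * ‖ξ‖) : ℝ) : ℂ) * 𝓕 u₁ ξ) x

/-- the Bessel potential `(I - Δ)^{s/2} u` -/
noncomputable def bes (s : ℝ) (u : E 3 → ℂ) (x : E 3) : ℂ :=
  inv (fun ξ => (((1 + 4 * Real.pi ^ 2 * ‖ξ‖ ^ 2) ^ (s / 2) : ℝ) : ℂ) * 𝓕 u ξ) x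

lemma temp (r : ℝ) : (fun ξ : E 3 => (((1 + 4 * Real.pi ^ 2 * ‖ξ‖ ^ 2) ^ r : ℝ) : ℂ)).HasTemperateGrowth := by
  have h0 : (fun ξ : E 3 => (2 * Real.pi) • ξ).HasTemperateGrowth :=
    ((2 * Real.pi) • ContinuousLinearMap.id ℝ (E 3)).hasTemperateGrowth
  have h1 := (Function.hasTemperateGrowth_one_add_norm_sq_rpow (E 3) r).comp h0
  have h2 : (fun ξ : E 3 => (1 + 4 * Real.pi ^ 2 * ‖ξ‖ ^ 2) ^ r) =
      (fun x : E 3 => (1 + ‖x‖ ^ 2) ^ r) ∘ fun ξ : E 3 => (2 * Real.pi) • ξ := by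
    funext ξ
    simp only [Function.comp_apply]
    rw [norm_smul, Real.norm_of_nonneg (by positivity)]
    congr 2
    ring
  rw [← h2] at h1
  exact Function.Complex.hasTemperateGrowth_ofReal.comp h1

lemma bes_schwartz (s : ℝ) (u : 𝓢(E 3, ℂ)) : ∃ f : 𝓢(E 3, ℂ), (f : E 3 → ℂ) = bes s u ∧
    ∀ ξ, 𝓕 (f : E 3 → ℂ) ξ =
      (((1 + 4 * Real.pi ^ 2 * ‖ξ‖ ^ 2) ^ (s / 2) : ℝ) : ℂ) * 𝓕 (u : E 3 → ℂ) ξ := by
  set g : 𝓢(E 3, ℂ) := SchwartzMap.smulLeftCLM ℂ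
    (fun ξ : E 3 => (((1 + 4 * Real.pi ^ 2 * ‖ξ‖ ^ 2) ^ (s / 2) : ℝ) : ℂ)) (𝓕 u) with hg
  have hgv : ∀ ξ, g ξ = (((1 + 4 * Real.pi ^ 2 * ‖ξ‖ ^ 2) ^ (s / 2) : ℝ) : ℂ) *
      𝓕 (u : E 3 → ℂ) ξ := by
    intro ξ
    rw [hg, SchwartzMap.smulLeftCLM_apply_apply (temp _), smul_eq_mul, SchwartzMap.fourier_coe]
  refine ⟨𝓕⁻ g, ?_, fun ξ => ?_⟩
  · funext x
    rw [SchwartzMap.fourierInv_coe, Real.fourierInv_eq']
    unfold bes inv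
    congr 1
    funext ξ
    rw [hgv, smul_eq_mul, real_inner_comm]
  · rw [← hgv, ← SchwartzMap.fourier_coe, FourierTransform.fourier_fourierInv_eq]

theorem wv_bessel {A p σ : ℝ} (hA : 0 ≤ A) (hp : 3 ≤ p) (hσ : σ < 1 / p) : ∃ C : ℝ, 0 < C ∧
    ∀ K₀ K₁ : Set (E 3), Thin A K₀ → Thin A K₁ → ∀ u₀ u₁ : 𝓢(E 3, ℂ),
      ∫⁻ t in Icc (0 : ℝ) 2, (∫⁻ x, ‖cau u₀ u₁ t x‖ₑ ^ p) ≤
        ENNReal.ofReal C * (Nm K₀ p (bes (1 - 2 / p - σ) u₀) +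
          Nm K₁ p (bes (1 - 2 / p - 1 - σ) u₁)) := by
  have hs : 1 - 3 / p < 1 - 2 / p - σ := by
    have : 3 / p = 2 / p + 1 / p := by ring
    linarith
  obtain ⟨C, hC, h⟩ := wv_main hA hp hs
  refine ⟨C, hC, fun K₀ K₁ hK₀ hK₁ u₀ u₁ => ?_⟩
  obtain ⟨f₀, e0, g0⟩ := bes_schwartz (1 - 2 / p - σ) u₀
  obtain ⟨f₁, e1, g1⟩ := bes_schwartz (1 - 2 / p - 1 - σ) u₁
  rw [← e0, ← e1]
  refine le_trans (le_of_eq ?_) (h K₀ K₁ hK₀ hK₁ f₀ f₁)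
  refine lintegral_congr fun t => lintegral_congr fun x => ?_
  congr 2
  unfold cau wave
  congr 1
  funext ξ
  rw [g0, g1]
  have hb : (0 : ℝ) < 1 + 4 * Real.pi ^ 2 * ‖ξ‖ ^ 2 := by positivity
  have k0 : ((1 + 4 * Real.pi ^ 2 * ‖ξ‖ ^ 2) ^ (-(1 - 2 / p - σ) / 2) : ℝ) *
      (1 + 4 * Real.pi ^ 2 * ‖ξ‖ ^ 2) ^ ((1 - 2 / p - σ) / 2) = 1 := by
    rw [← Real.rpow_add hb]
    rw [show -(1 - 2 / p - σ) / 2 + (1 - 2 / p - σ) / 2 = 0 by ring, Real.rpow_zero]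
  have k1 : ((1 + 4 * Real.pi ^ 2 * ‖ξ‖ ^ 2) ^ ((1 - (1 - 2 / p - σ)) / 2) : ℝ) *
      (1 + 4 * Real.pi ^ 2 * ‖ξ‖ ^ 2) ^ ((1 - 2 / p - 1 - σ) / 2) = 1 := by
    rw [← Real.rpow_add hb]
    rw [show (1 - (1 - 2 / p - σ)) / 2 + (1 - 2 / p - 1 - σ) / 2 = 0 by ring, Real.rpow_zero]
  have m0 : ∀ c b e : ℝ, b * e = 1 → ∀ z : ℂ,
      ((c * b : ℝ) : ℂ) * (((e : ℝ) : ℂ) * z) = ((c : ℝ) : ℂ) * z := by
    intro c b e h z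
    rw [← mul_assoc, ← Complex.ofReal_mul, mul_assoc, h, mul_one]
  rw [m0 _ _ _ k0, m0 _ _ _ k1]

end Pool.Agent.U562.WV
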