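import Pool.Agent.U562.WV.Stm
set_option autoImplicit false

/-! The Riesz potential of two-dimensional sets at the scale `δ`. -/

open MeasureTheory Set Metric
open scoped ENNReal NNReal

namespace Pool.Agent.U562.WV

lemma riesz_log {A δ : ℝ} (hA : 0 ≤ A) (hδ : 0 < δ) (hδ1 : δ ≤ 1) {T : Set (E 3)} {z : E 3}
    (h : ∀ ρ : ℝ, δ ≤ ρ → ρ ≤ 8 → volume (ball z ρ ∩ T) ≤ ENNReal.ofReal (A * ρ ^ 2 * δ)) :
    ∫⁻ y in ball z 8 ∩ T, 1 / ‖y - z‖ₑ ^ 2 ≤
      ENNReal.ofReal (9 * (1 + A) * (1 + Real.log (1 / δ)) * δ) := by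
  have hpi : Real.pi < 3.15 := Real.pi_lt_d2
  have hpi0 := Real.pi_pos
  have hL : 0 ≤ Real.log (1 / δ) := Real.log_nonneg (by rw [le_div_iff₀ hδ]; linarith)
  set μ : Measure (E 3) := volume.restrict (ball z 8 ∩ T) with hμ
  set f : E 3 → ℝ := fun y => (‖y - z‖ ^ 2)⁻¹ with hf
  have hfm : Measurable f := by rw [hf]; fun_prop
  have e1 : ∫⁻ y, 1 / ‖y - z‖ₑ ^ 2 ∂μ = ∫⁻ y, ENNReal.ofReal (f y) ∂μ := by
    refine lintegral_congr_ae ?_
    have h0 : ∀ᵐ y ∂μ, y ≠ z := by
      have : ∀ᵐ y ∂(volume : Measure (E 3)), y ≠ z := by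
        simp [ae_iff]
      exact ae_restrict_of_ae this
    filter_upwards [h0] with y hy
    have hpos : 0 < ‖y - z‖ ^ 2 := by
      have := norm_pos_iff.mpr (sub_ne_zero.mpr hy)
      positivity
    rw [hf]
    simp only
    rw [ENNReal.ofReal_inv_of_pos hpos, ENNReal.ofReal_pow (norm_nonneg _), ofReal_norm, one_div]
  rw [e1, lintegral_eq_lintegral_meas_lt μ (Filter.Eventually.of_forall fun y => by
    rw [hf]; simp only [Pi.zero_apply]; positivity) hfm.aemeasurable]
  have hball : ∀ t : ℝ, 0 < t → μ {a | t < f a} ≤ volume (ball z (Real.sqrt t⁻¹) ∩ (ball z 8 ∩ T)) := by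
    intro t ht
    rw [hμ, Measure.restrict_apply (measurableSet_lt measurable_const hfm)]
    refine measure_mono (inter_subset_inter_left _ ?_)
    intro y hy
    simp only [mem_ofPred_eq, hf] at hy
    rw [mem_ball, dist_eq_norm]
    apply Real.lt_sqrt_of_sq_lt
    have h1 : 0 < (‖y - z‖ ^ 2)⁻¹ := ht.trans hy
    have h2 : 0 < ‖y - z‖ ^ 2 := inv_pos.mp h1
    exact (lt_inv_comm₀ ht h2).mp hy
  set b : ℝ := (δ ^ 2)⁻¹ with hb
  have hb1 : 1 ≤ b := (one_le_inv₀ (by positivity)).mpr (pow_le_one₀ hδ.le hδ1)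
  have hb0 : 0 < b := by positivity
  have hsqb : ∀ t, 0 < t → t ≤ b → δ ≤ Real.sqrt t⁻¹ := by
    intro t ht htb
    apply Real.le_sqrt_of_sq_le
    rw [hb] at htb
    exact (le_inv_comm₀ ht (by positivity)).mp htb
  -- the three ranges
  have r1 : ∫⁻ t in Ioc (0 : ℝ) 64⁻¹, μ {a | t < f a} ≤ ENNReal.ofReal (A * δ) := by
    calc ∫⁻ t in Ioc (0 : ℝ) 64⁻¹, μ {a | t < f a} ≤ ∫⁻ t in Ioc (0 : ℝ) 64⁻¹, ENNReal.ofReal (A * 64 * δ) := by
          apply setLIntegral_mono' measurableSet_Ioc
          intro t ht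
          refine (hball t ht.1).trans ((measure_mono inter_subset_right).trans ?_)
          have := h 8 (by linarith) le_rfl
          norm_num at this
          exact this
      _ = ENNReal.ofReal (A * δ) := by
          rw [setLIntegral_const, Real.volume_Ioc, sub_zero, ← ENNReal.ofReal_mul (by positivity)]
          congr 1
          ring
  have r2 : ∫⁻ t in Ioc (64⁻¹ : ℝ) b, μ {a | t < f a} ≤
      ENNReal.ofReal (A * δ * (2 * Real.log (1 / δ) + 4.2)) := by
    have hint : IntegrableOn (fun t : ℝ => A * δ * t⁻¹) (Ioc 64⁻¹ b) := by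
      have h1 : IntervalIntegrable (fun t : ℝ => A * δ * t⁻¹) volume 64⁻¹ b := by
        apply ContinuousOn.intervalIntegrable
        apply ContinuousOn.mul continuousOn_const
        apply ContinuousOn.inv₀ continuousOn_id
        intro t ht
        rw [uIcc_of_le (by norm_num at hb1 ⊢; linarith)] at ht
        have : (0 : ℝ) < t := lt_of_lt_of_le (by norm_num) ht.1
        exact this.ne'
      exact (intervalIntegrable_iff_integrableOn_Ioc_of_le (by norm_num at hb1 ⊢; linarith)).mp h1
    calc ∫⁻ t in Ioc (64⁻¹ : ℝ) b, μ {a | t < f a}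
        ≤ ∫⁻ t in Ioc (64⁻¹ : ℝ) b, ENNReal.ofReal (A * δ * t⁻¹) := by
          apply setLIntegral_mono' measurableSet_Ioc
          intro t ht
          have ht0 : 0 < t := lt_trans (by norm_num) ht.1
          refine (hball t ht0).trans ?_
          have h1 : Real.sqrt t⁻¹ ≤ 8 := by
            rw [Real.sqrt_le_left (by norm_num)]
            have : t⁻¹ ≤ 64 := by
              rw [inv_le_comm₀ ht0 (by norm_num)]
              exact ht.1.le
            linarith
          have h2 := h (Real.sqrt t⁻¹) (hsqb t ht0 ht.2) h1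
          rw [Real.sq_sqrt (by positivity)] at h2
          refine (measure_mono ?_).trans (h2.trans (le_of_eq ?_))
          · exact inter_subset_inter_right _ inter_subset_right
          · congr 1
            ring
      _ = ENNReal.ofReal (∫ t in Ioc (64⁻¹ : ℝ) b, A * δ * t⁻¹) := by
          rw [ofReal_integral_eq_lintegral_ofReal hint]
          refine (ae_restrict_mem measurableSet_Ioc).mono fun t ht => ?_
          have ht0 : 0 < t := lt_trans (by norm_num) ht.1
          simp only [Pi.zero_apply]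
          positivity
      _ ≤ _ := by
          apply ENNReal.ofReal_le_ofReal
          rw [← intervalIntegral.integral_of_le (by norm_num at hb1 ⊢; linarith),
            intervalIntegral.integral_const_mul, integral_inv_of_pos (by norm_num) hb0]
          have h1 : Real.log (b / 64⁻¹) = 2 * Real.log (1 / δ) + Real.log 64 := by
            rw [hb, div_inv_eq_mul, Real.log_mul (by positivity) (by norm_num), one_div,
              Real.log_inv, Real.log_inv, Real.log_pow]
            push_cast
            ring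
          have h2 : Real.log 64 ≤ 4.2 := by
            have : (64 : ℝ) = 2 ^ (6 : ℕ) := by norm_num
            rw [this, Real.log_pow]
            have := Real.log_two_lt_d9
            push_cast
            linarith
          rw [h1]
          gcongr
  have r3 : ∫⁻ t in Ioi b, μ {a | t < f a} ≤ ENNReal.ofReal (8.4 * δ) := by
    have hint : IntegrableOn (fun t : ℝ => Real.pi * 4 / 3 * t ^ (-(3 / 2) : ℝ)) (Ioi b) :=
      (integrableOn_Ioi_rpow_of_lt (by norm_num) hb0).const_mul _
    calc ∫⁻ t in Ioi b, μ {a | t < f a}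
        ≤ ∫⁻ t in Ioi b, ENNReal.ofReal (Real.pi * 4 / 3 * t ^ (-(3 / 2) : ℝ)) := by
          apply setLIntegral_mono' measurableSet_Ioi
          intro t ht
          have ht0 : 0 < t := hb0.trans ht
          refine (hball t ht0).trans ((measure_mono inter_subset_left).trans ?_)
          rw [EuclideanSpace.volume_ball_fin_three, ← ENNReal.ofReal_pow (Real.sqrt_nonneg _),
            ← ENNReal.ofReal_mul (by positivity)]
          apply ENNReal.ofReal_le_ofReal
          have h1 : Real.sqrt t⁻¹ ^ 3 = t ^ (-(3 / 2) : ℝ) := by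
            rw [Real.sqrt_eq_rpow, ← Real.rpow_natCast, ← Real.rpow_mul (by positivity),
              Real.inv_rpow ht0.le, ← Real.rpow_neg ht0.le]
            congr 1
            norm_num
          rw [h1]
          linarith [mul_comm (t ^ (-(3 / 2) : ℝ)) (Real.pi * 4 / 3)]
      _ = ENNReal.ofReal (∫ t in Ioi b, Real.pi * 4 / 3 * t ^ (-(3 / 2) : ℝ)) := by
          rw [ofReal_integral_eq_lintegral_ofReal hint]
          refine (ae_restrict_mem measurableSet_Ioi).mono fun t ht => ?_
          have ht0 : 0 < t := hb0.trans ht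
          simp only [Pi.zero_apply]
          positivity
      _ ≤ _ := by
          apply ENNReal.ofReal_le_ofReal
          rw [integral_const_mul, integral_Ioi_rpow_of_lt (by norm_num) hb0]
          have h1 : b ^ (-(3 / 2) + 1 : ℝ) = δ := by
            have e : (-(3 / 2) + 1 : ℝ) = -(1 / 2) := by norm_num
            rw [e, hb, Real.inv_rpow (by positivity), Real.rpow_neg (by positivity), inv_inv,
              ← Real.sqrt_eq_rpow, Real.sqrt_sq hδ.le]
          rw [h1]
          have e2 : Real.pi * 4 / 3 * (-δ / (-(3 / 2) + 1)) = Real.pi * 8 / 3 * δ := by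
            ring
          rw [e2]
          gcongr
          linarith
  have hcov : Ioi (0 : ℝ) ⊆ (Ioc (0 : ℝ) 64⁻¹ ∪ Ioc (64⁻¹ : ℝ) b) ∪ Ioi b := by
    intro t ht
    rcases le_or_gt t 64⁻¹ with h1 | h1
    · exact Or.inl (Or.inl ⟨ht, h1⟩)
    · rcases le_or_gt t b with h2 | h2
      · exact Or.inl (Or.inr ⟨h1, h2⟩)
      · exact Or.inr h2
  calc ∫⁻ t in Ioi (0 : ℝ), μ {a | t < f a}
      ≤ ∫⁻ t in (Ioc (0 : ℝ) 64⁻¹ ∪ Ioc (64⁻¹ : ℝ) b) ∪ Ioi b, μ {a | t < f a} :=
        lintegral_mono_set hcov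
    _ ≤ (∫⁻ t in Ioc (0 : ℝ) 64⁻¹, μ {a | t < f a}) + (∫⁻ t in Ioc (64⁻¹ : ℝ) b, μ {a | t < f a}) +
        ∫⁻ t in Ioi b, μ {a | t < f a} := by
        refine (lintegral_union_le _ _ _).trans ?_
        gcongr
        exact lintegral_union_le _ _ _
    _ ≤ ENNReal.ofReal (A * δ) + ENNReal.ofReal (A * δ * (2 * Real.log (1 / δ) + 4.2)) +
        ENNReal.ofReal (8.4 * δ) := by gcongr
    _ ≤ _ := by
        rw [← ENNReal.ofReal_add (by positivity) (by positivity),
          ← ENNReal.ofReal_add (by positivity) (by positivity)]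
        apply ENNReal.ofReal_le_ofReal
        have h1 : 0 ≤ A * Real.log (1 / δ) := by positivity
        have h2 : A + A * (2 * Real.log (1 / δ) + 4.2) + 8.4 ≤
            9 * (1 + A) * (1 + Real.log (1 / δ)) := by nlinarith
        calc A * δ + A * δ * (2 * Real.log (1 / δ) + 4.2) + 8.4 * δ
            = (A + A * (2 * Real.log (1 / δ) + 4.2) + 8.4) * δ := by ring
          _ ≤ _ := by gcongr

end Pool.Agent.U562.WV
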