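import Pool.Agent.U562.WV.Bil
import Pool.Agent.U562.HD.Conv
import Pool.Agent.U480.WV.Kir
import Pool.Agent.U88.WV.PIE
set_option autoImplicit false

/-! Mollification with a Schwartz function supported in the unit ball. -/

open MeasureTheory Set Metric
open scoped ENNReal NNReal FourierTransform RealInnerProductSpace SchwartzMap

namespace Pool.Agent.U562.WV

/-- `∫ e^{2πi⟨y,ξ⟩} h(ξ) f^(ξ) dξ` is a convolution -/
lemma inv_conv {h f : E 3 → ℂ} (hh : Integrable h) (hf : Integrable f) (y : E 3) :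
    inv (fun ξ => h ξ * 𝓕 f ξ) y = ∫ x, f x * inv h (y - x) := by
  unfold inv
  have e1 : ∀ ξ : E 3, Complex.exp (((2 * Real.pi * ⟪y, ξ⟫ : ℝ) : ℂ) * Complex.I) *
      (h ξ * 𝓕 f ξ) = ∫ x, f x * (Complex.exp (((2 * Real.pi * ⟪y - x, ξ⟫ : ℝ) : ℂ) *
        Complex.I) * h ξ) := by
    intro ξ
    rw [Real.fourier_eq', ← integral_const_mul, ← integral_const_mul]
    congr 1
    funext x
    have : Complex.exp (((2 * Real.pi * ⟪y - x, ξ⟫ : ℝ) : ℂ) * Complex.I) =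
        Complex.exp (((2 * Real.pi * ⟪y, ξ⟫ : ℝ) : ℂ) * Complex.I) *
        Complex.exp (((-2 * Real.pi * ⟪x, ξ⟫ : ℝ) : ℂ) * Complex.I) := by
      rw [← Complex.exp_add, inner_sub_left]
      congr 1
      push_cast
      ring
    rw [this, smul_eq_mul]
    ring
  simp_rw [e1]
  rw [integral_integral_swap]
  · congr 1
    funext x
    rw [integral_const_mul]
  · have hp : Integrable (fun q : E 3 × E 3 => h q.1 * f q.2) (volume.prod volume) :=
      hh.mul_prod hf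
    have hc : Continuous fun q : E 3 × E 3 =>
        Complex.exp (((2 * Real.pi * ⟪y - q.2, q.1⟫ : ℝ) : ℂ) * Complex.I) := by fun_prop
    have := hp.bdd_mul (c := 1) hc.aestronglyMeasurable (Filter.Eventually.of_forall fun q => by
      rw [Complex.norm_exp_ofReal_mul_I])
    refine this.congr (Filter.Eventually.of_forall fun q => ?_)
    simp only [Function.uncurry]
    ring

/-- the kernel `δ^{-3} φ(z/δ)` -/
noncomputable def kk (φ : 𝓢(E 3, ℂ)) (δ : ℝ) (z : E 3) : ℂ :=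
  (((δ ^ 3)⁻¹ : ℝ) : ℂ) * φ (δ⁻¹ • z)

lemma inv_scaled (φ : 𝓢(E 3, ℂ)) {δ : ℝ} (hδ : 0 < δ) (z : E 3) :
    inv (fun ξ => 𝓕 (φ : E 3 → ℂ) (δ • ξ)) z = kk φ δ z := by
  unfold inv kk
  have h1 := Measure.integral_comp_smul (volume : Measure (E 3))
    (fun ξ : E 3 => Complex.exp (((2 * Real.pi * ⟪δ⁻¹ • z, ξ⟫ : ℝ) : ℂ) * Complex.I) *
      𝓕 (φ : E 3 → ℂ) ξ) δ
  have h2 : (fun ξ : E 3 => Complex.exp (((2 * Real.pi * ⟪δ⁻¹ • z, δ • ξ⟫ : ℝ) : ℂ) *
      Complex.I) * 𝓕 (φ : E 3 → ℂ) (δ • ξ)) =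
      fun ξ : E 3 => Complex.exp (((2 * Real.pi * ⟪z, ξ⟫ : ℝ) : ℂ) * Complex.I) *
        𝓕 (φ : E 3 → ℂ) (δ • ξ) := by
    funext ξ
    rw [real_inner_smul_left, real_inner_smul_right, inv_mul_cancel_left₀ hδ.ne']
  rw [h2] at h1
  rw [h1]
  have h3 : (∫ ξ : E 3, Complex.exp (((2 * Real.pi * ⟪δ⁻¹ • z, ξ⟫ : ℝ) : ℂ) * Complex.I) *
      𝓕 (φ : E 3 → ℂ) ξ) = φ (δ⁻¹ • z) := by
    have h4 : 𝓕⁻ (𝓕 (φ : E 3 → ℂ)) (δ⁻¹ • z) = φ (δ⁻¹ • z) := by
      have h5 : Integrable (𝓕 (φ : E 3 → ℂ)) := by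
        have := (𝓕 φ : 𝓢(E 3, ℂ)).integrable (μ := volume)
        rwa [SchwartzMap.fourier_coe] at this
      rw [Continuous.fourierInv_fourier_eq φ.continuous φ.integrable h5]
    rw [← h4, Real.fourierInv_eq']
    congr 1
    funext ξ
    rw [smul_eq_mul, real_inner_comm]
  rw [h3]
  have hn : Module.finrank ℝ (E 3) = 3 := by simp
  rw [hn, abs_of_pos (by positivity), Complex.real_smul]

end Pool.Agent.U562.WV
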