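import Pool.Agent.U562.WV.Stm
import Pool.Agent.U506.SP.G1
import Pool.Agent.K7.H98.GMC.Arch
set_option autoImplicit false

/-! The surface measure in stereographic coordinates. -/

open MeasureTheory Set Metric
open scoped ENNReal NNReal FourierTransform RealInnerProductSpace

namespace Pool.Agent.U562.WV

open Pool.Agent.U506.SP (om om_cont par par_meas slice)
open Pool.Agent.H438R2.BR (J)

/-- Jacobian of the stereographic projection -/
noncomputable def rs (s : ℝ) (z : ℝ × ℝ) : ℝ := 4 * s ^ 2 / (s ^ 2 + z.1 ^ 2 + z.2 ^ 2) ^ 2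

/-- inverse stereographic projection -/
noncomputable def oms (b : Fin 3 → E 3) (s : ℝ) (z : ℝ × ℝ) : E 3 :=
  (2 * s / (s ^ 2 + z.1 ^ 2 + z.2 ^ 2)) • pt b s z - b 2

/-- the standard frame -/
noncomputable def ee (i : Fin 3) : E 3 := EuclideanSpace.single i 1

lemma J0 (x : E 2) (y : E 1) : (J x y : E 3) 0 = x 0 := by
  have h : (J x y : E 3) (Fin.castAdd 1 0) = x 0 := by
    change Fin.append (fun i => x i) (fun i => y i) (Fin.castAdd 1 0) = x 0
    rw [Fin.append_left]
  exact h

lemma J1 (x : E 2) (y : E 1) : (J x y : E 3) 1 = x 1 := by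
  have h : (J x y : E 3) (Fin.castAdd 1 1) = x 1 := by
    change Fin.append (fun i => x i) (fun i => y i) (Fin.castAdd 1 1) = x 1
    rw [Fin.append_left]
  exact h

lemma J2 (x : E 2) (y : E 1) : (J x y : E 3) 2 = y 0 := by
  have h : (J x y : E 3) (Fin.natAdd 2 0) = y 0 := by
    change Fin.append (fun i => x i) (fun i => y i) (Fin.natAdd 2 0) = y 0
    rw [Fin.append_right]
  exact h

/-- the point of the sphere at height `c` with azimuth `θ` -/
noncomputable def sp (c θ : ℝ) : E 3 :=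
  !₂[Real.sqrt (1 - c ^ 2) * Real.cos θ, Real.sqrt (1 - c ^ 2) * Real.sin θ, c]

lemma sp_cont : Continuous fun p : ℝ × ℝ => sp p.1 p.2 := by
  unfold sp
  refine (PiLp.continuous_toLp 2 _).comp ?_
  refine continuous_pi fun i => ?_
  fin_cases i
  · simp; fun_prop
  · simp; fun_prop
  · simp; fun_prop

lemma e1_mp : MeasurePreserving (fun r : ℝ => (WithLp.toLp 2 fun _ => r : E 1))
    (volume : Measure ℝ) (volume : Measure (E 1)) := by
  have h1 := PiLp.volume_preserving_toLp (Fin 1)
  have h2 := (volume_preserving_funUnique (Fin 1) ℝ).symm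
  have h3 := h1.comp h2
  have e : (fun r : ℝ => (WithLp.toLp 2 fun _ => r : E 1)) =
      (WithLp.toLp 2 : (Fin 1 → ℝ) → E 1) ∘ (MeasurableEquiv.funUnique (Fin 1) ℝ).symm := by
    funext r
    ext i
    fin_cases i
    simp [MeasurableEquiv.funUnique]
  rw [e]
  exact h3

/-- cylindrical coordinates on the sphere -/
lemma cyl (G : E 3 → ℝ≥0∞) (hG : Measurable G) : ∫⁻ w, G w ∂sg =
    ∫⁻ c in Ioo (-1 : ℝ) 1, ∫⁻ θ in Ioc (-Real.pi) Real.pi, G (sp c θ) := by
  have h := slice (m := 1) le_rfl G hG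
  have h0 : ∫⁻ w, G w ∂sg = ∫⁻ z, G z ∂(Pool.Agent.H789R2.FR.sg (2 + 1)) := rfl
  rw [h0, h]
  have hj : Measurable fun p : E 1 × ℝ => G (par p.1 p.2) := hG.comp (par_meas (m := 1))
  have hm : Measurable fun y : E 1 => ∫⁻ θ in Ioc (-Real.pi) Real.pi, G (par y θ) :=
    hj.lintegral_prod_right'
  rw [← e1_mp.setLIntegral_comp_preimage measurableSet_ball hm]
  have hpre : (fun r : ℝ => (WithLp.toLp 2 fun _ => r : E 1)) ⁻¹' ball 0 1 = Ioo (-1 : ℝ) 1 := by
    ext r
    rw [mem_preimage, mem_ball_zero_iff, EuclideanSpace.norm_eq]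
    simp [abs_lt, Real.sqrt_sq_eq_abs]
  rw [hpre]
  refine setLIntegral_congr_fun measurableSet_Ioo fun c _ => ?_
  refine lintegral_congr fun θ => ?_
  congr 1
  have hn : Pool.Agent.TH335.RF.wt (WithLp.toLp 2 fun _ => c : E 1) = Real.sqrt (1 - c ^ 2) := by
    unfold Pool.Agent.TH335.RF.wt
    rw [EuclideanSpace.norm_eq, Real.sq_sqrt (by positivity)]
    simp
  unfold par
  rw [hn]
  ext i
  fin_cases i
  · exact (J0 _ _).trans (by simp [sp, om])
  · exact (J1 _ _).trans (by simp [sp, om])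
  · exact (J2 _ _).trans (by simp [sp])

/-- the height as a function of the radius in the plane -/
noncomputable def ch (s r : ℝ) : ℝ := (s ^ 2 - r ^ 2) / (s ^ 2 + r ^ 2)

lemma ch_deriv {s : ℝ} (hs : 0 < s) (r : ℝ) :
    HasDerivAt (ch s) (-(4 * r * s ^ 2) / (s ^ 2 + r ^ 2) ^ 2) r := by
  unfold ch
  have h1 : HasDerivAt (fun r : ℝ => s ^ 2 - r ^ 2) (-(2 * r)) r := by
    have := (hasDerivAt_pow 2 r).const_sub (s ^ 2)
    simpa using this
  have h2 : HasDerivAt (fun r : ℝ => s ^ 2 + r ^ 2) (2 * r) r := by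
    have := (hasDerivAt_pow 2 r).const_add (s ^ 2)
    simpa using this
  have hn : s ^ 2 + r ^ 2 ≠ 0 := by positivity
  have h3 := h1.div h2 hn
  refine h3.congr_deriv ?_
  congr 1
  ring

lemma ch_inj {s : ℝ} (hs : 0 < s) : InjOn (ch s) (Ioi 0) := by
  intro r hr q hq h
  have hr' : (0 : ℝ) < r := hr
  have hq' : (0 : ℝ) < q := hq
  unfold ch at h
  rw [div_eq_div_iff (by positivity) (by positivity)] at h
  have h1 : r ^ 2 = q ^ 2 := by
    have : s ^ 2 * (r ^ 2 - q ^ 2) = 0 := by linarith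
    rcases mul_eq_zero.mp this with h2 | h2
    · exact absurd h2 (by positivity)
    · linarith
  exact (sq_eq_sq₀ hr'.le hq'.le).mp h1

lemma ch_image {s : ℝ} (hs : 0 < s) : ch s '' (Ioi 0) = Ioo (-1 : ℝ) 1 := by
  ext c
  constructor
  · rintro ⟨r, hr, rfl⟩
    have hr' : (0 : ℝ) < r := hr
    unfold ch
    constructor
    · rw [lt_div_iff₀ (by positivity)]
      nlinarith [sq_pos_of_pos hs, sq_pos_of_pos hr']
    · rw [div_lt_one (by positivity)]
      nlinarith [sq_pos_of_pos hs, sq_pos_of_pos hr']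
  · rintro ⟨h1, h2⟩
    have h3 : 0 < (1 - c) / (1 + c) := div_pos (by linarith) (by linarith)
    refine ⟨s * Real.sqrt ((1 - c) / (1 + c)), ?_, ?_⟩
    · exact mul_pos hs (Real.sqrt_pos.mpr h3)
    · unfold ch
      rw [mul_pow, Real.sq_sqrt h3.le]
      have h4 : 1 + c ≠ 0 := by linarith
      have h5 : s ≠ 0 := hs.ne'
      field_simp
      ring

lemma ee_orth : Orthonormal ℝ ee := EuclideanSpace.orthonormal_single

/-- the surface measure in stereographic coordinates, standard frame -/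
lemma ster0 {s : ℝ} (hs : 0 < s) (G : E 3 → ℝ≥0∞) (hG : Measurable G) : ∫⁻ w, G w ∂sg =
    ∫⁻ z : ℝ × ℝ, ENNReal.ofReal (rs s z) * G (oms ee s z) := by
  have hsp : Measurable fun p : ℝ × ℝ => G (sp p.1 p.2) := hG.comp sp_cont.measurable
  rw [cyl G hG, ← ch_image hs, lintegral_image_eq_lintegral_abs_deriv_mul measurableSet_Ioi
    (fun r _ => (ch_deriv hs r).hasDerivWithinAt) (ch_inj hs), ← lintegral_comp_polarCoord_symm]
  have htar : polarCoord.target = Ioi (0 : ℝ) ×ˢ Ioo (-Real.pi) Real.pi := rfl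
  have hM : Measurable fun p : ℝ × ℝ => ENNReal.ofReal p.1 •
      (ENNReal.ofReal (rs s (polarCoord.symm p)) * G (oms ee s (polarCoord.symm p))) := by
    have hps : Measurable fun p : ℝ × ℝ => polarCoord.symm p := by
      simp only [polarCoord_symm_apply]
      fun_prop
    have h1 : Measurable fun z : ℝ × ℝ => rs s z := by unfold rs; fun_prop
    have h2 : Measurable fun z : ℝ × ℝ => oms ee s z := by
      unfold oms pt
      fun_prop
    exact (ENNReal.measurable_ofReal.comp measurable_fst).smul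
      ((h1.comp hps).ennreal_ofReal.mul (hG.comp (h2.comp hps)))
  rw [htar, Measure.volume_eq_prod, ← Measure.prod_restrict, lintegral_prod _ hM.aemeasurable]
  refine setLIntegral_congr_fun measurableSet_Ioi fun r hr => ?_
  have hr' : (0 : ℝ) < r := hr
  rw [restrict_Ioo_eq_restrict_Ioc, ← lintegral_const_mul]
  · refine lintegral_congr fun θ => ?_
    have hpt : polarCoord.symm (r, θ) = (r * Real.cos θ, r * Real.sin θ) := rfl
    have hcs : (r * Real.cos θ) ^ 2 + (r * Real.sin θ) ^ 2 = r ^ 2 := by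
      rw [mul_pow, mul_pow, ← mul_add, add_comm, Real.sin_sq_add_cos_sq, mul_one]
    have hden : s ^ 2 + (r * Real.cos θ) ^ 2 + (r * Real.sin θ) ^ 2 = s ^ 2 + r ^ 2 := by
      rw [add_assoc, hcs]
    have e1 : rs s (polarCoord.symm (r, θ)) = 4 * s ^ 2 / (s ^ 2 + r ^ 2) ^ 2 := by
      unfold rs
      rw [hpt]
      simp only
      rw [hden]
    have e2 : oms ee s (polarCoord.symm (r, θ)) = sp (ch s r) θ := by
      unfold oms
      rw [hpt]
      simp only
      rw [hden]
      have e3 : Real.sqrt (1 - ch s r ^ 2) = 2 * s * r / (s ^ 2 + r ^ 2) := by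
        have : 1 - ch s r ^ 2 = (2 * s * r / (s ^ 2 + r ^ 2)) ^ 2 := by
          unfold ch
          have hn : s ^ 2 + r ^ 2 ≠ 0 := by positivity
          field_simp
          ring
        rw [this, Real.sqrt_sq (by positivity)]
      unfold sp pt ee
      rw [e3]
      have hn : s ^ 2 + r ^ 2 ≠ 0 := by positivity
      ext i
      fin_cases i
      · simp
        field_simp
      · simp
        field_simp
      · simp [ch]
        field_simp
        ring
    rw [e1, e2, smul_eq_mul, ← mul_assoc, ← ENNReal.ofReal_mul hr'.le]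
    congr 2
    rw [neg_div, abs_neg, abs_of_nonneg (by positivity)]
    ring
  · exact (hsp.comp (measurable_const.prodMk measurable_id))

end Pool.Agent.U562.WV
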