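import Pool.Agent.U562.WV.Moll
set_option autoImplicit false

/-! Local smoothing at one frequency for data supported in sets with bounded Riesz potential. -/

open MeasureTheory Set Metric
open scoped ENNReal NNReal FourierTransform RealInnerProductSpace SchwartzMap

namespace Pool.Agent.U562.WV

open Pool.Agent.U562.HD (young)
open Pool.Agent.U88.WV.PIE (der)

/-- the derivative of `kk` -/
noncomputable def dk (φ : 𝓢(E 3, ℂ)) (δ : ℝ) (z : E 3) : E 3 →L[ℝ] ℂ :=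
  ((δ ^ 3)⁻¹ * δ⁻¹) • fderiv ℝ φ (δ⁻¹ • z)

lemma kk_deriv (φ : 𝓢(E 3, ℂ)) (δ : ℝ) (z : E 3) : HasFDerivAt (kk φ δ) (dk φ δ z) z := by
  have h1 : HasFDerivAt (fun z : E 3 => δ⁻¹ • z) (δ⁻¹ • ContinuousLinearMap.id ℝ (E 3)) z :=
    (hasFDerivAt_id z).const_smul δ⁻¹
  have h2 : HasFDerivAt (φ : E 3 → ℂ) (fderiv ℝ φ (δ⁻¹ • z)) (δ⁻¹ • z) :=
    (φ.differentiable _).hasFDerivAt
  have h3 := HasFDerivAt.comp (f := fun z : E 3 => δ⁻¹ • z) z h2 h1
  have h4 := h3.const_smul ((δ ^ 3)⁻¹ : ℝ)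
  have e1 : kk φ δ = ((δ ^ 3)⁻¹ : ℝ) • ((φ : E 3 → ℂ) ∘ fun z : E 3 => δ⁻¹ • z) := by
    funext z
    unfold kk
    simp [Complex.real_smul]
  rw [e1]
  refine h4.congr_fderiv ?_
  unfold dk
  ext v
  simp [smul_smul, mul_assoc]

lemma bounds {φ : 𝓢(E 3, ℂ)} (hφ : tsupport φ ⊆ ball 0 1) :
    ∃ M : ℝ, 0 < M ∧ ∀ z, ‖φ z‖ ≤ M ∧ ‖fderiv ℝ φ z‖ ≤ M := by
  have hc : HasCompactSupport (φ : E 3 → ℂ) :=
    Metric.isCompact_of_isClosed_isBounded (isClosed_tsupport _) (isBounded_ball.subset hφ)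
  obtain ⟨M1, h1⟩ := φ.continuous.bounded_above_of_compact_support hc
  have h0 : Continuous (fderiv ℝ (φ : E 3 → ℂ)) :=
    (φ.smooth 1).continuous_fderiv (by norm_num)
  obtain ⟨M2, h2⟩ := h0.bounded_above_of_compact_support (hc.fderiv ℝ)
  refine ⟨max (max M1 M2) 1, lt_of_lt_of_le one_pos (le_max_right _ _), fun z => ⟨?_, ?_⟩⟩
  · exact (h1 z).trans ((le_max_left _ _).trans (le_max_left _ _))
  · exact (h2 z).trans ((le_max_right _ _).trans (le_max_left _ _))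

/-- the majorant of the kernel -/
noncomputable def Gam (M δ : ℝ) (z : E 3) : ℝ≥0∞ :=
  (ball (0 : E 3) δ).indicator (fun _ => ENNReal.ofReal (M * (δ ^ 3)⁻¹)) z

lemma Gam_meas (M δ : ℝ) : Measurable (Gam M δ) :=
  measurable_const.indicator measurableSet_ball

lemma out_ball {δ : ℝ} (hδ : 0 < δ) {z : E 3} (hz : z ∉ ball (0 : E 3) δ) :
    δ⁻¹ • z ∉ ball (0 : E 3) 1 := by
  rw [mem_ball_zero_iff, not_lt] at hz ⊢
  rw [norm_smul, norm_inv, Real.norm_of_nonneg hδ.le, inv_mul_eq_div, le_div_iff₀ hδ, one_mul]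
  exact hz

lemma kk_le {φ : 𝓢(E 3, ℂ)} (hφ : tsupport φ ⊆ ball 0 1) {M : ℝ} (hM : ∀ z, ‖φ z‖ ≤ M)
    {δ : ℝ} (hδ : 0 < δ) (z : E 3) : ‖kk φ δ z‖ₑ ≤ Gam M δ z := by
  unfold kk Gam
  by_cases hz : z ∈ ball (0 : E 3) δ
  · rw [indicator_of_mem hz, ← ofReal_norm]
    apply ENNReal.ofReal_le_ofReal
    rw [norm_mul, Complex.norm_real, Real.norm_of_nonneg (by positivity), mul_comm]
    exact mul_le_mul_of_nonneg_right (hM _) (by positivity)
  · rw [image_eq_zero_of_notMem_tsupport fun h => out_ball hδ hz (hφ h)]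
    simp

lemma dk_le {φ : 𝓢(E 3, ℂ)} (hφ : tsupport φ ⊆ ball 0 1) {M : ℝ}
    (hM : ∀ z, ‖fderiv ℝ φ z‖ ≤ M) {δ : ℝ} (hδ : 0 < δ) (z : E 3) :
    ENNReal.ofReal δ * ‖dk φ δ z‖ₑ ≤ Gam M δ z := by
  unfold dk Gam
  by_cases hz : z ∈ ball (0 : E 3) δ
  · rw [indicator_of_mem hz, ← ofReal_norm, ← ENNReal.ofReal_mul hδ.le]
    apply ENNReal.ofReal_le_ofReal
    rw [norm_smul, Real.norm_of_nonneg (by positivity)]
    have h1 := hM (δ⁻¹ • z)
    have h2 : δ * ((δ ^ 3)⁻¹ * δ⁻¹ * ‖fderiv ℝ φ (δ⁻¹ • z)‖) =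
        ‖fderiv ℝ φ (δ⁻¹ • z)‖ * (δ ^ 3)⁻¹ := by
      field_simp
    rw [h2]
    exact mul_le_mul_of_nonneg_right h1 (by positivity)
  · have h0 : fderiv ℝ φ (δ⁻¹ • z) = 0 := by
      have h1 : δ⁻¹ • z ∉ tsupport (fderiv ℝ (φ : E 3 → ℂ)) := fun h =>
        out_ball hδ hz (hφ (tsupport_fderiv_subset ℝ h))
      exact image_eq_zero_of_notMem_tsupport h1
    have e0 : ‖fderiv ℝ (φ : E 3 → ℂ) (δ⁻¹ • z)‖ = 0 := by
      rw [h0]
      exact norm_zero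
    have e1 : ‖((δ ^ 3)⁻¹ * δ⁻¹) • fderiv ℝ (φ : E 3 → ℂ) (δ⁻¹ • z)‖ₑ = 0 := by
      rw [← ofReal_norm, norm_smul, e0, mul_zero, ENNReal.ofReal_zero]
    rw [e1, mul_zero]
    exact zero_le

lemma Gam_int {M δ : ℝ} (hM : 0 ≤ M) (hδ : 0 < δ) : ∫⁻ z, Gam M δ z =
    ENNReal.ofReal (M * (volume (ball (0 : E 3) 1)).toReal) := by
  unfold Gam
  rw [lintegral_indicator measurableSet_ball, setLIntegral_const,
    Measure.addHaar_ball volume (0 : E 3) hδ.le]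
  have hn : Module.finrank ℝ (E 3) = 3 := by simp
  have hv : volume (ball (0 : E 3) 1) ≠ ∞ := measure_ball_lt_top.ne
  rw [hn, ENNReal.ofReal_mul hM, ENNReal.ofReal_mul hM, ENNReal.ofReal_toReal hv, ← mul_assoc,
    mul_assoc (ENNReal.ofReal M), ← ENNReal.ofReal_mul (by positivity),
    inv_mul_cancel₀ (by positivity), ENNReal.ofReal_one, mul_one]

/-- the solution with the data `u(0) = φ_δ * f`, `∂ₜ u(0) = 0` -/
noncomputable def sol (φ : 𝓢(E 3, ℂ)) (δ : ℝ) (f : E 3 → ℂ) (t : ℝ) (x : E 3) : ℂ :=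
  inv (fun ξ => ((Real.cos (2 * Real.pi * t * ‖ξ‖) : ℝ) : ℂ) *
    (𝓕 (φ : E 3 → ℂ) (δ • ξ) * 𝓕 f ξ)) x

/-- the average of `|f|` over the ball of radius `δ`, up to a constant -/
noncomputable def av (δ : ℝ) (f : E 3 → ℂ) (y : E 3) : ℝ≥0∞ :=
  ENNReal.ofReal ((δ ^ 3)⁻¹) * ∫⁻ x in ball y δ, ‖f x‖ₑ

lemma av_eq {M δ : ℝ} (hM : 0 ≤ M) (f : E 3 → ℂ) (y : E 3) :
    ∫⁻ x, ‖f x‖ₑ * Gam M δ (y - x) = ENNReal.ofReal M * av δ f y := by
  unfold av Gam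
  rw [← mul_assoc, ← ENNReal.ofReal_mul hM, ← lintegral_indicator measurableSet_ball,
    ← lintegral_const_mul' _ _ ENNReal.ofReal_ne_top]
  refine lintegral_congr fun x => ?_
  have e : y - x ∈ ball (0 : E 3) δ ↔ x ∈ ball y δ := by
    rw [mem_ball_zero_iff, mem_ball, dist_eq_norm, ← norm_neg, neg_sub]
  by_cases hx : x ∈ ball y δ
  · rw [indicator_of_mem (e.mpr hx), indicator_of_mem hx, mul_comm]
  · rw [indicator_of_notMem (fun h => hx (e.mp h)), indicator_of_notMem hx, mul_zero, mul_zero]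

lemma h_int (φ : 𝓢(E 3, ℂ)) {δ : ℝ} (hδ : 0 < δ) {f : E 3 → ℂ} (hf : Integrable f) (k : ℕ) :
    Integrable fun ξ : E 3 => ((‖ξ‖ ^ k : ℝ) : ℂ) * (𝓕 (φ : E 3 → ℂ) (δ • ξ) * 𝓕 f ξ) := by
  have hF : (𝓕 (φ : E 3 → ℂ)) = ((𝓕 φ : 𝓢(E 3, ℂ)) : E 3 → ℂ) := (SchwartzMap.fourier_coe φ).symm
  have hh1 : Integrable fun ξ : E 3 => ((‖ξ‖ ^ k : ℝ) : ℂ) * 𝓕 (φ : E 3 → ℂ) (δ • ξ) := by
    have h1 := ((𝓕 φ : 𝓢(E 3, ℂ)).integrable_pow_mul volume k).comp_smul hδ.ne'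
    have h2 := h1.const_mul (δ ^ k)⁻¹
    refine h2.mono' ?_ (Filter.Eventually.of_forall fun ξ => ?_)
    · rw [hF]
      exact ((Complex.continuous_ofReal.comp (continuous_norm.pow k)).mul
        ((𝓕 φ : 𝓢(E 3, ℂ)).continuous.comp (continuous_const_smul δ))).aestronglyMeasurable
    · rw [norm_mul, Complex.norm_real, norm_pow, norm_norm, norm_smul, Real.norm_of_nonneg hδ.le, hF,
        mul_pow]
      have : (δ ^ k)⁻¹ * (δ ^ k * ‖ξ‖ ^ k * ‖(𝓕 φ : 𝓢(E 3, ℂ)) (δ • ξ)‖) =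
          ‖ξ‖ ^ k * ‖(𝓕 φ : 𝓢(E 3, ℂ)) (δ • ξ)‖ := by field_simp
      rw [this]
  have hfc : Continuous (𝓕 f) := by
    have := VectorFourier.fourierIntegral_continuous Real.continuous_fourierChar
      (L := innerₗ (E 3)) continuous_inner hf
    exact this
  have hfb : ∀ ξ, ‖𝓕 f ξ‖ ≤ ∫ x, ‖f x‖ := fun ξ =>
    VectorFourier.norm_fourierIntegral_le_integral_norm _ _ _ _ _
  have := hh1.mul_bdd hfc.aestronglyMeasurable (Filter.Eventually.of_forall hfb)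
  refine this.congr (Filter.Eventually.of_forall fun ξ => ?_)
  simp only
  ring

lemma av_conv (δ : ℝ) (f : E 3 → ℂ) (y : E 3) :
    av δ f y = ∫⁻ x, ‖f x‖ₑ * Gam 1 δ (y - x) := by
  rw [av_eq zero_le_one, ENNReal.ofReal_one, one_mul]

lemma avm {f : E 3 → ℂ} (hf : Integrable f) {δ : ℝ} (hδ : 0 < δ) : Measurable (av δ f) ∧
    ∀ p : ℝ, 1 ≤ p → ∫⁻ y, av δ f y ^ p ≤
      ENNReal.ofReal ((volume (ball (0 : E 3) 1)).toReal) ^ p * ∫⁻ x, ‖f x‖ₑ ^ p := by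
  set f' : E 3 → ℂ := hf.1.mk f with hf'
  have hf'm : Measurable f' := hf.1.stronglyMeasurable_mk.measurable
  have hff' : f =ᵐ[volume] f' := hf.1.ae_eq_mk
  have hFe : av δ f = fun y => ∫⁻ z, ‖f' (y - z)‖ₑ * Gam 1 δ z := by
    funext y
    have h1 : ∫⁻ x, ‖f x‖ₑ * Gam 1 δ (y - x) = ∫⁻ x, ‖f' x‖ₑ * Gam 1 δ (y - x) := by
      refine lintegral_congr_ae ?_
      filter_upwards [hff'] with x hx
      rw [hx]
    rw [av_conv, h1]
    rw [← lintegral_sub_left_eq_self (fun x => ‖f' x‖ₑ * Gam 1 δ (y - x)) y]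
    refine lintegral_congr fun z => ?_
    rw [sub_sub_cancel]
  refine ⟨?_, fun p hp => ?_⟩
  · rw [hFe]
    have h1 : Measurable fun q : E 3 × E 3 => ‖f' (q.1 - q.2)‖ₑ * Gam 1 δ q.2 :=
      (hf'm.comp (measurable_fst.sub measurable_snd)).enorm.mul ((Gam_meas 1 δ).comp measurable_snd)
    exact h1.lintegral_prod_right'
  · have h1 := young (p := p) hp (F := fun x => ‖f' x‖ₑ) hf'm.enorm (Gam_meas 1 δ)
      (by rw [Gam_int zero_le_one hδ]; exact ENNReal.ofReal_ne_top)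
    rw [Gam_int zero_le_one hδ, one_mul] at h1
    have h2 : ∫⁻ x, ‖f' x‖ₑ ^ p = ∫⁻ x, ‖f x‖ₑ ^ p := by
      refine lintegral_congr_ae ?_
      filter_upwards [hff'] with x hx
      rw [hx]
    rw [h2] at h1
    rw [hFe]
    exact h1

lemma av_ne_top {f : E 3 → ℂ} (hf : Integrable f) (δ : ℝ) (y : E 3) : av δ f y ≠ ∞ := by
  unfold av
  refine ENNReal.mul_ne_top ENNReal.ofReal_ne_top ?_
  exact ((setLIntegral_le_lintegral _ _).trans_lt hf.2).ne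

/-- the trilinear energy -/
noncomputable def Tri (p δ : ℝ) (f : E 3 → ℂ) : ℝ≥0∞ :=
  ∫⁻ y, av δ f y ^ (p - 2) * ∫⁻ z in ball y 8, av δ f z ^ 2 / ‖z - y‖ₑ ^ 2

theorem tri_est (hKIR : S_KIR) (hMAIN : S_MAIN) (φ : 𝓢(E 3, ℂ)) (hφ : tsupport φ ⊆ ball 0 1)
    {p : ℝ} (hp : 3 ≤ p) : ∃ C : ℝ, 0 < C ∧ ∀ (δ : ℝ) (f : E 3 → ℂ), 0 < δ → δ ≤ 1 →
      Integrable f →
      ∫⁻ t in Icc (0 : ℝ) 3, ∫⁻ x, ‖sol φ δ f t x‖ₑ ^ p ≤
        ENNReal.ofReal (C * δ ^ (2 - p)) * Tri p δ f := by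
  obtain ⟨M, hM0, hM⟩ := bounds hφ
  refine ⟨4 ^ (p - 2) * M ^ p, by positivity, ?_⟩
  intro δ f hδ hδ1 hf
  have hp0 : 0 < p := by linarith
  -- integrability on the Fourier side
  have hF : (𝓕 (φ : E 3 → ℂ)) = ((𝓕 φ : 𝓢(E 3, ℂ)) : E 3 → ℂ) := (SchwartzMap.fourier_coe φ).symm
  have hh : Integrable fun ξ : E 3 => 𝓕 (φ : E 3 → ℂ) (δ • ξ) := by
    rw [hF]
    exact ((𝓕 φ : 𝓢(E 3, ℂ)).integrable (μ := volume)).comp_smul hδ.ne'
  have hi1 : Integrable fun ξ : E 3 => 𝓕 (φ : E 3 → ℂ) (δ • ξ) * 𝓕 f ξ := by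
    have := h_int φ hδ hf 0
    simpa using this
  have hi2 : Integrable fun ξ : E 3 => (‖ξ‖ : ℂ) * (𝓕 (φ : E 3 → ℂ) (δ • ξ) * 𝓕 f ξ) := by
    have := h_int φ hδ hf 1
    simpa using this
  obtain ⟨hc1, hU⟩ := hKIR _ hi1 hi2
  set g : E 3 → ℂ := inv fun ξ => 𝓕 (φ : E 3 → ℂ) (δ • ξ) * 𝓕 f ξ with hg
  have hgc : g = fun y => ∫ x, f x * kk φ δ (y - x) := by
    funext y
    rw [hg, inv_conv hh hf]
    congr 1
    funext x
    rw [inv_scaled φ hδ]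
  -- the majorant
  set F : E 3 → ℝ≥0∞ := fun y => ENNReal.ofReal M * av δ f y with hFd
  have hFm : Measurable F := (avm hf hδ).1.const_mul _
  have hFe : ∀ y, F y = ∫⁻ x, ‖f x‖ₑ * Gam M δ (y - x) := fun y => (av_eq hM0.le f y).symm
  have hgF : ∀ y, ‖g y‖ₑ ≤ F y := by
    intro y
    rw [hgc, hFe]
    refine (enorm_integral_le_lintegral_enorm _).trans (lintegral_mono fun x => ?_)
    rw [enorm_mul]
    gcongr
    exact kk_le hφ (fun z => (hM z).1) hδ _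
  have hdk : Continuous (dk φ δ) := by
    unfold dk
    have h0 : Continuous (fderiv ℝ (φ : E 3 → ℂ)) := (φ.smooth 1).continuous_fderiv (by norm_num)
    have h1 : Continuous fun z : E 3 => fderiv ℝ (φ : E 3 → ℂ) (δ⁻¹ • z) :=
      h0.comp (continuous_const_smul (δ⁻¹ : ℝ))
    exact h1.const_smul ((δ ^ 3)⁻¹ * δ⁻¹ : ℝ)
  have hdF : ∀ y, ENNReal.ofReal δ * ‖fderiv ℝ g y‖ₑ ≤ F y := by
    intro y
    have h1 : HasFDerivAt g (∫ x, f x • dk φ δ (y - x)) y := by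
      rw [hgc]
      refine der (M := max (M * (δ ^ 3)⁻¹) (δ⁻¹ * (M * (δ ^ 3)⁻¹))) hf (kk_deriv φ δ) hdk ?_ ?_ y
      · intro z
        refine le_trans ?_ (le_max_left _ _)
        unfold kk
        rw [norm_mul, Complex.norm_real, Real.norm_of_nonneg (by positivity), mul_comm]
        exact mul_le_mul_of_nonneg_right (hM _).1 (by positivity)
      · intro z
        refine le_trans ?_ (le_max_right _ _)
        unfold dk
        rw [norm_smul, Real.norm_of_nonneg (by positivity)]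
        have := (hM (δ⁻¹ • z)).2
        calc (δ ^ 3)⁻¹ * δ⁻¹ * ‖fderiv ℝ φ (δ⁻¹ • z)‖ ≤ (δ ^ 3)⁻¹ * δ⁻¹ * M := by gcongr
          _ = _ := by ring
    rw [h1.fderiv, hFe]
    calc ENNReal.ofReal δ * ‖∫ x, f x • dk φ δ (y - x)‖ₑ
        ≤ ENNReal.ofReal δ * ∫⁻ x, ‖f x • dk φ δ (y - x)‖ₑ := by
          gcongr
          exact enorm_integral_le_lintegral_enorm _
      _ = ∫⁻ x, ENNReal.ofReal δ * ‖f x • dk φ δ (y - x)‖ₑ :=
          (lintegral_const_mul' _ _ ENNReal.ofReal_ne_top).symm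
      _ ≤ _ := by
          refine lintegral_mono fun x => ?_
          simp only
          rw [enorm_smul, mul_left_comm]
          gcongr
          exact dk_le hφ (fun z => (hM z).2) hδ _
  have hm := hMAIN p hp g F δ 3 hc1 hFm hδ three_pos hgF hdF
  have h6 : (2 * 3 + 2 : ℝ) = 8 := by norm_num
  rw [h6] at hm
  have hsol : ∫⁻ t in Icc (0 : ℝ) 3, ∫⁻ x, ‖sol φ δ f t x‖ₑ ^ p =
      ∫⁻ t in Ioc (0 : ℝ) 3, ∫⁻ x, ‖U g t x‖ₑ ^ p := by
    rw [← restrict_Ioc_eq_restrict_Icc]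
    refine lintegral_congr fun t => lintegral_congr fun x => ?_
    unfold sol
    rw [hU t x]
  have hM' : ENNReal.ofReal M ≠ 0 := (ENNReal.ofReal_pos.mpr hM0).ne'
  have h1 : ∀ y, F y ^ (p - 2) * ∫⁻ z in ball y 8, ‖g z‖ₑ ^ 2 / ‖z - y‖ₑ ^ 2 ≤
      ENNReal.ofReal M ^ p * (av δ f y ^ (p - 2) *
        ∫⁻ z in ball y 8, av δ f z ^ 2 / ‖z - y‖ₑ ^ 2) := by
    intro y
    calc F y ^ (p - 2) * ∫⁻ z in ball y 8, ‖g z‖ₑ ^ 2 / ‖z - y‖ₑ ^ 2
        ≤ F y ^ (p - 2) * ∫⁻ z in ball y 8, ENNReal.ofReal M ^ 2 *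
            (av δ f z ^ 2 / ‖z - y‖ₑ ^ 2) := by
          gcongr with z
          rw [← mul_div_assoc, ← mul_pow]
          gcongr
          exact hgF z
      _ = ENNReal.ofReal M ^ (p - 2) * av δ f y ^ (p - 2) * (ENNReal.ofReal M ^ 2 *
            ∫⁻ z in ball y 8, av δ f z ^ 2 / ‖z - y‖ₑ ^ 2) := by
          rw [hFd]
          simp only
          rw [ENNReal.mul_rpow_of_nonneg _ _ (by linarith),
            lintegral_const_mul' _ _ (ENNReal.pow_ne_top ENNReal.ofReal_ne_top)]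
      _ = ENNReal.ofReal M ^ (p - 2) * ENNReal.ofReal M ^ 2 * (av δ f y ^ (p - 2) *
            ∫⁻ z in ball y 8, av δ f z ^ 2 / ‖z - y‖ₑ ^ 2) := by ring
      _ = _ := by
          congr 1
          rw [← ENNReal.rpow_two, ← ENNReal.rpow_add _ _ hM' ENNReal.ofReal_ne_top]
          congr 1
          ring
  have h2 : ENNReal.ofReal ((1 + 3 / δ) ^ (p - 2)) ≤ ENNReal.ofReal (4 ^ (p - 2) * δ ^ (2 - p)) := by
    apply ENNReal.ofReal_le_ofReal
    have h1 : 1 + 3 / δ ≤ 4 * δ⁻¹ := by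
      rw [div_eq_mul_inv]
      have : 1 ≤ δ⁻¹ := (one_le_inv₀ hδ).mpr hδ1
      linarith
    calc (1 + 3 / δ) ^ (p - 2) ≤ (4 * δ⁻¹) ^ (p - 2) :=
          Real.rpow_le_rpow (by positivity) h1 (by linarith)
      _ = 4 ^ (p - 2) * δ ^ (2 - p) := by
          rw [Real.mul_rpow (by norm_num) (by positivity), Real.inv_rpow hδ.le,
            ← Real.rpow_neg hδ.le]
          congr 2
          ring
  rw [hsol]
  calc _ ≤ _ := hm
    _ ≤ ENNReal.ofReal (4 ^ (p - 2) * δ ^ (2 - p)) * ∫⁻ y, ENNReal.ofReal M ^ p *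
        (av δ f y ^ (p - 2) * ∫⁻ z in ball y 8, av δ f z ^ 2 / ‖z - y‖ₑ ^ 2) :=
        mul_le_mul' h2 (lintegral_mono h1)
    _ = ENNReal.ofReal (4 ^ (p - 2) * δ ^ (2 - p)) * (ENNReal.ofReal M ^ p * Tri p δ f) := by
        rw [lintegral_const_mul' _ _ (ENNReal.rpow_ne_top_of_nonneg (by linarith)
          ENNReal.ofReal_ne_top)]
        rfl
    _ = _ := by
        rw [← mul_assoc, ENNReal.ofReal_rpow_of_nonneg hM0.le (by linarith),
          ← ENNReal.ofReal_mul (by positivity)]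
        congr 2
        ring

/-- the trilinear energy of functions with sparse support -/
lemma tri_sup {p : ℝ} (hp : 3 ≤ p) {δ : ℝ} (hδ : 0 < δ) {D : ℝ≥0∞} {S : Set (E 3)} {f : E 3 → ℂ}
    (hS : ∀ z, ∫⁻ y in ball z 8 ∩ thickening δ S, 1 / ‖y - z‖ₑ ^ 2 ≤ D) (hf : Integrable f)
    (hfS : ∀ x, x ∉ S → f x = 0) :
    Tri p δ f ≤ 2 * D * (ENNReal.ofReal ((volume (ball (0 : E 3) 1)).toReal) ^ p *
      ∫⁻ x, ‖f x‖ₑ ^ p) := by
  obtain ⟨hFm, hy⟩ := avm hf hδ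
  set w : E 3 → ℝ≥0∞ := (thickening δ S).indicator 1 with hw
  have hwm : Measurable w := measurable_one.indicator isOpen_thickening.measurableSet
  have hw1 : ∀ y, w y ≤ 1 := by
    intro y
    rw [hw]
    by_cases hy : y ∈ thickening δ S
    · rw [indicator_of_mem hy]; rfl
    · rw [indicator_of_notMem hy]; exact zero_le
  have hwF : ∀ y, w y * av δ f y = av δ f y := by
    intro y
    by_cases hy : y ∈ thickening δ S
    · rw [hw, indicator_of_mem hy, Pi.one_apply, one_mul]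
    · have h0 : av δ f y = 0 := by
        rw [av_conv]
        have : ∀ x, ‖f x‖ₑ * Gam 1 δ (y - x) = 0 := by
          intro x
          by_cases hx : x ∈ S
          · have h1 : y - x ∉ ball (0 : E 3) δ := by
              intro h
              apply hy
              rw [mem_thickening_iff]
              refine ⟨x, hx, ?_⟩
              rwa [mem_ball_zero_iff, ← dist_eq_norm] at h
            unfold Gam
            rw [indicator_of_notMem h1, mul_zero]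
          · rw [hfS x hx]; simp
        simp [this]
      rw [h0, mul_zero]
  have hbd : ∀ b : E 3, ∫⁻ y in ball b 8, w y / ‖y - b‖ₑ ^ 2 ≤ D := by
    intro b
    refine le_trans (le_of_eq ?_) (hS b)
    have e1 : ∀ y, w y / ‖y - b‖ₑ ^ 2 = (thickening δ S).indicator (fun y => 1 / ‖y - b‖ₑ ^ 2) y := by
      intro y
      rw [hw]
      by_cases hy : y ∈ thickening δ S
      · rw [indicator_of_mem hy, indicator_of_mem hy, Pi.one_apply]
      · rw [indicator_of_notMem hy, indicator_of_notMem hy, ENNReal.zero_div]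
    simp_rw [e1]
    rw [lintegral_indicator isOpen_thickening.measurableSet, Measure.restrict_restrict
      isOpen_thickening.measurableSet, inter_comm]
  have hg : ∀ z, ‖(((av δ f z).toReal : ℝ) : ℂ)‖ₑ = av δ f z := by
    intro z
    rw [← ofReal_norm, Complex.norm_real, Real.norm_of_nonneg ENNReal.toReal_nonneg,
      ENNReal.ofReal_toReal (av_ne_top hf δ z)]
  have hb := bil_gen hwm hw1 hbd hp (fun z => (((av δ f z).toReal : ℝ) : ℂ)) (av δ f) hFm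
    (fun y => by rw [hwF, hg])
  simp_rw [hwF, hg] at hb
  unfold Tri
  exact hb.trans (by gcongr; exact hy p (by linarith))

end Pool.Agent.U562.WV
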