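import Pool.Agent.U562.WV.Vel2
import Pool.Agent.U562.WV.Log
set_option autoImplicit false

/-! Final form of the frequency-localised estimates. -/

open MeasureTheory Set Metric
open scoped ENNReal NNReal FourierTransform RealInnerProductSpace SchwartzMap

namespace Pool.Agent.U562.WV

/-- the Riesz potential of order one of the `δ`-neighbourhood of `S` is at most `D` -/
def Pot (D : ℝ≥0∞) (δ : ℝ) (S : Set (E 3)) : Prop :=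
  ∀ z, ∫⁻ y in ball z 8 ∩ thickening δ S, 1 / ‖y - z‖ₑ ^ 2 ≤ D

/-- the `δ`-neighbourhood of `S` has measure at most `A ρ² δ` in balls of radius `ρ` -/
def Gro (A δ : ℝ) (S : Set (E 3)) : Prop :=
  ∀ (z : E 3) (ρ : ℝ), δ ≤ ρ → ρ ≤ 8 →
    volume (ball z ρ ∩ thickening δ S) ≤ ENNReal.ofReal (A * ρ ^ 2 * δ)

lemma gro_pot {A δ : ℝ} (hA : 0 ≤ A) (hδ : 0 < δ) (hδ1 : δ ≤ 1) {S : Set (E 3)} (h : Gro A δ S) :
    Pot (ENNReal.ofReal (9 * (1 + A) * (1 + Real.log (1 / δ)) * δ)) δ S :=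
  fun z => riesz_log hA hδ hδ1 (h z)

theorem sup_main (φ : 𝓢(E 3, ℂ)) (hφ : tsupport φ ⊆ ball 0 1) {p : ℝ} (hp : 3 ≤ p) :
    ∃ C : ℝ, 0 < C ∧ ∀ (δ : ℝ) (f₀ f₁ : E 3 → ℂ), 0 < δ → δ ≤ 1 → Integrable f₀ →
      Integrable f₁ →
      (∫⁻ t in Icc (0 : ℝ) 2, ∫⁻ x, ‖sol2 φ δ f₀ f₁ t x‖ₑ ^ p ≤
        ENNReal.ofReal (C * δ ^ (2 - p)) * (Tri p δ f₀ + Tri p δ f₁)) ∧
      (∀ (D : ℝ≥0∞) (S₀ S₁ : Set (E 3)), Pot D δ S₀ → Pot D δ S₁ → (∀ x, x ∉ S₀ → f₀ x = 0) →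
        (∀ x, x ∉ S₁ → f₁ x = 0) →
        ∫⁻ t in Icc (0 : ℝ) 2, ∫⁻ x, ‖sol2 φ δ f₀ f₁ t x‖ₑ ^ p ≤
          ENNReal.ofReal (C * δ ^ (2 - p)) * D * ((∫⁻ x, ‖f₀ x‖ₑ ^ p) + ∫⁻ x, ‖f₁ x‖ₑ ^ p)) ∧
      ∀ (A : ℝ) (S₀ S₁ : Set (E 3)), 0 ≤ A → Gro A δ S₀ → Gro A δ S₁ → (∀ x, x ∉ S₀ → f₀ x = 0) →
        (∀ x, x ∉ S₁ → f₁ x = 0) →
        ∫⁻ t in Icc (0 : ℝ) 2, ∫⁻ x, ‖sol2 φ δ f₀ f₁ t x‖ₑ ^ p ≤
          ENNReal.ofReal (C * (1 + A) * (1 + Real.log (1 / δ)) * δ ^ (3 - p)) *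
            ((∫⁻ x, ‖f₀ x‖ₑ ^ p) + ∫⁻ x, ‖f₁ x‖ₑ ^ p) := by
  obtain ⟨C, hC, h⟩ := full_est φ hφ hp
  set v : ℝ := (volume (ball (0 : E 3) 1)).toReal with hv
  have hv0 : 0 < v := ENNReal.toReal_pos (measure_ball_pos volume _ one_pos).ne'
    measure_ball_lt_top.ne
  set C' : ℝ := C * (2 * v ^ p) with hC'
  have hC'0 : 0 < C' := by positivity
  refine ⟨C + 9 * C', by positivity, ?_⟩
  intro δ f₀ f₁ hδ hδ1 hf₀ hf₁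
  have hδp : 0 < δ ^ (2 - p) := Real.rpow_pos_of_pos hδ _
  have h2 : ∀ (D : ℝ≥0∞) (S₀ S₁ : Set (E 3)), Pot D δ S₀ → Pot D δ S₁ → (∀ x, x ∉ S₀ → f₀ x = 0) →
        (∀ x, x ∉ S₁ → f₁ x = 0) →
        ∫⁻ t in Icc (0 : ℝ) 2, ∫⁻ x, ‖sol2 φ δ f₀ f₁ t x‖ₑ ^ p ≤
          ENNReal.ofReal (C' * δ ^ (2 - p)) * D * ((∫⁻ x, ‖f₀ x‖ₑ ^ p) + ∫⁻ x, ‖f₁ x‖ₑ ^ p) := by
    intro D S₀ S₁ hS₀ hS₁ hs₀ hs₁
    refine (h δ f₀ f₁ hδ hδ1 hf₀ hf₁).trans ?_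
    have k0 := tri_sup hp hδ hS₀ hf₀ hs₀
    have k1 := tri_sup hp hδ hS₁ hf₁ hs₁
    rw [← hv] at k0 k1
    calc _ ≤ ENNReal.ofReal (C * δ ^ (2 - p)) *
          (2 * D * (ENNReal.ofReal v ^ p * ∫⁻ x, ‖f₀ x‖ₑ ^ p) +
            2 * D * (ENNReal.ofReal v ^ p * ∫⁻ x, ‖f₁ x‖ₑ ^ p)) :=
          mul_le_mul_right (add_le_add k0 k1) _
      _ = (ENNReal.ofReal (C * δ ^ (2 - p)) * ENNReal.ofReal (2 * v ^ p)) * D *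
            ((∫⁻ x, ‖f₀ x‖ₑ ^ p) + ∫⁻ x, ‖f₁ x‖ₑ ^ p) := by
          rw [ENNReal.ofReal_mul (p := 2) (by norm_num), ENNReal.ofReal_ofNat,
            ← ENNReal.ofReal_rpow_of_pos hv0]
          ring
      _ = _ := by
          rw [← ENNReal.ofReal_mul (by positivity)]
          congr 3
          rw [hC']
          ring
  refine ⟨?_, ?_, ?_⟩
  · refine (h δ f₀ f₁ hδ hδ1 hf₀ hf₁).trans ?_
    refine mul_le_mul_left (ENNReal.ofReal_le_ofReal ?_) _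
    exact mul_le_mul_of_nonneg_right (by linarith) hδp.le
  · intro D S₀ S₁ hS₀ hS₁ hs₀ hs₁
    refine (h2 D S₀ S₁ hS₀ hS₁ hs₀ hs₁).trans ?_
    refine mul_le_mul_left (mul_le_mul_left (ENNReal.ofReal_le_ofReal ?_) _) _
    exact mul_le_mul_of_nonneg_right (by linarith) hδp.le
  · intro A S₀ S₁ hA hS₀ hS₁ hs₀ hs₁
    have hL : 0 ≤ Real.log (1 / δ) := Real.log_nonneg (by rw [le_div_iff₀ hδ]; linarith)
    refine (h2 _ S₀ S₁ (gro_pot hA hδ hδ1 hS₀) (gro_pot hA hδ hδ1 hS₁) hs₀ hs₁).trans ?_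
    refine mul_le_mul_left ?_ _
    rw [← ENNReal.ofReal_mul (by positivity)]
    apply ENNReal.ofReal_le_ofReal
    have e : δ ^ (3 - p) = δ ^ (2 - p) * δ := by
      rw [← Real.rpow_add_one hδ.ne']
      congr 1
      ring
    rw [e]
    calc C' * δ ^ (2 - p) * (9 * (1 + A) * (1 + Real.log (1 / δ)) * δ)
        = 9 * C' * ((1 + A) * (1 + Real.log (1 / δ)) * (δ ^ (2 - p) * δ)) := by ring
      _ ≤ (C + 9 * C') * ((1 + A) * (1 + Real.log (1 / δ)) * (δ ^ (2 - p) * δ)) := by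
          apply mul_le_mul_of_nonneg_right (by linarith)
          positivity
      _ = _ := by ring

end Pool.Agent.U562.WV
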