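import Pool.Agent.U562.WV.Sup
import Pool.Agent.U688.WV.Rep
import Pool.Agent.U688.WV.Hold
set_option autoImplicit false

/-! Velocity data: the time derivative of the solution. -/

open MeasureTheory Set Metric
open scoped ENNReal NNReal FourierTransform RealInnerProductSpace SchwartzMap

namespace Pool.Agent.U562.WV

open Pool.Agent.U688.WV (ee ee_norm ee_meas inv_eq ee_int inv_add inv_meas)

/-- `d/dt` of the solution with Fourier transform `cos(2πt|ξ|) h(ξ)` -/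
noncomputable def dd (h : E 3 → ℂ) (t : ℝ) (x : E 3) : ℂ :=
  inv (fun ξ => ((-(2 * Real.pi * ‖ξ‖) * Real.sin (2 * Real.pi * t * ‖ξ‖) : ℝ) : ℂ) * h ξ) x

/-- the solution with Fourier transform `cos(2πt|ξ|) h(ξ)` -/
noncomputable def cc (h : E 3 → ℂ) (t : ℝ) (x : E 3) : ℂ :=
  inv (fun ξ => ((Real.cos (2 * Real.pi * t * ‖ξ‖) : ℝ) : ℂ) * h ξ) x

/-- the second derivative -/
noncomputable def ed (h : E 3 → ℂ) (t : ℝ) (x : E 3) : ℂ :=
  inv (fun ξ => ((-(2 * Real.pi * ‖ξ‖) ^ 2 * Real.cos (2 * Real.pi * t * ‖ξ‖) : ℝ) : ℂ) * h ξ) x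

/-- differentiation of a parametric inverse Fourier transform -/
lemma inv_deriv (m m' : ℝ → E 3 → ℝ) (B : E 3 → ℝ) (h : E 3 → ℂ) (x : E 3)
    (hm : ∀ t, Continuous (m t)) (hm' : ∀ t, Continuous (m' t))
    (hd : ∀ t ξ, HasDerivAt (fun t => m t ξ) (m' t ξ) t) (hB : ∀ t ξ, |m' t ξ| ≤ B ξ)
    (h0 : ∀ t, Integrable fun ξ => ((m t ξ : ℝ) : ℂ) * h ξ)
    (hBi : Integrable fun ξ => B ξ * ‖h ξ‖) (hh : AEStronglyMeasurable h volume) (t : ℝ) :
    HasDerivAt (fun t => inv (fun ξ => ((m t ξ : ℝ) : ℂ) * h ξ) x)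
      (inv (fun ξ => ((m' t ξ : ℝ) : ℂ) * h ξ) x) t := by
  have hem : AEStronglyMeasurable (fun ξ => ee x ξ) volume :=
    (ee_meas.comp (f := fun ξ : E 3 => (x, ξ)) (by fun_prop)).aestronglyMeasurable
  have := hasDerivAt_integral_of_dominated_loc_of_deriv_le (μ := (volume : Measure (E 3)))
    (F := fun t ξ => ee x ξ * (((m t ξ : ℝ) : ℂ) * h ξ))
    (F' := fun t ξ => ee x ξ * (((m' t ξ : ℝ) : ℂ) * h ξ)) (x₀ := t)
    (bound := fun ξ => B ξ * ‖h ξ‖) (s := univ) Filter.univ_mem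
    (Filter.Eventually.of_forall fun t => hem.mul
      ((Complex.continuous_ofReal.comp (hm t)).aestronglyMeasurable.mul hh))
    (ee_int x _ (h0 t))
    (hem.mul ((Complex.continuous_ofReal.comp (hm' t)).aestronglyMeasurable.mul hh))
    (Filter.Eventually.of_forall fun ξ t _ => by
      rw [norm_mul, ee_norm, one_mul, norm_mul, Complex.norm_real, Real.norm_eq_abs]
      exact mul_le_mul_of_nonneg_right (hB t ξ) (norm_nonneg _)) hBi
    (Filter.Eventually.of_forall fun ξ t _ =>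
      (((hd t ξ).ofReal_comp).mul_const _).const_mul _)
  exact this.2

lemma cc_deriv {h : E 3 → ℂ} (h0 : Integrable h)
    (h1 : Integrable fun ξ => ((‖ξ‖ ^ 1 : ℝ) : ℂ) * h ξ) (x : E 3) (t : ℝ) :
    HasDerivAt (fun t => cc h t x) (dd h t x) t := by
  unfold cc dd
  refine inv_deriv (fun t ξ => Real.cos (2 * Real.pi * t * ‖ξ‖))
    (fun t ξ => -(2 * Real.pi * ‖ξ‖) * Real.sin (2 * Real.pi * t * ‖ξ‖))
    (fun ξ => 2 * Real.pi * ‖ξ‖) h x (fun t => by fun_prop) (fun t => by fun_prop) ?_ ?_ ?_ ?_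
    h0.1 t
  · intro t ξ
    have e1 : HasDerivAt (fun t : ℝ => 2 * Real.pi * t * ‖ξ‖) (2 * Real.pi * ‖ξ‖) t := by
      have := ((hasDerivAt_id t).const_mul (2 * Real.pi)).mul_const ‖ξ‖
      simpa using this
    have e2 := e1.cos
    convert e2 using 1
    ring
  · intro t ξ
    rw [abs_mul, abs_neg, abs_of_nonneg (by positivity : 0 ≤ 2 * Real.pi * ‖ξ‖)]
    exact mul_le_of_le_one_right (by positivity) (Real.abs_sin_le_one _)
  · intro t
    refine h0.bdd_mul (c := 1) ?_ (Filter.Eventually.of_forall fun ξ => ?_)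
    · exact (Complex.continuous_ofReal.comp (by fun_prop : Continuous fun ξ : E 3 =>
        Real.cos (2 * Real.pi * t * ‖ξ‖))).aestronglyMeasurable
    · rw [Complex.norm_real]
      exact Real.abs_cos_le_one _
  · refine (h1.norm.const_mul (2 * Real.pi)).congr (Filter.Eventually.of_forall fun ξ => ?_)
    simp only
    rw [norm_mul, Complex.norm_real, pow_one, norm_norm]
    ring

lemma dd_deriv {h : E 3 → ℂ} (h0 : Integrable h)
    (h1 : Integrable fun ξ => ((‖ξ‖ ^ 1 : ℝ) : ℂ) * h ξ)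
    (h2 : Integrable fun ξ => ((‖ξ‖ ^ 2 : ℝ) : ℂ) * h ξ) (x : E 3) (t : ℝ) :
    HasDerivAt (fun t => dd h t x) (ed h t x) t := by
  unfold dd ed
  refine inv_deriv (fun t ξ => -(2 * Real.pi * ‖ξ‖) * Real.sin (2 * Real.pi * t * ‖ξ‖))
    (fun t ξ => -(2 * Real.pi * ‖ξ‖) ^ 2 * Real.cos (2 * Real.pi * t * ‖ξ‖))
    (fun ξ => (2 * Real.pi * ‖ξ‖) ^ 2) h x (fun t => by fun_prop) (fun t => by fun_prop) ?_ ?_ ?_ ?_
    h0.1 t
  · intro t ξ
    have e1 : HasDerivAt (fun t : ℝ => 2 * Real.pi * t * ‖ξ‖) (2 * Real.pi * ‖ξ‖) t := by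
      have := ((hasDerivAt_id t).const_mul (2 * Real.pi)).mul_const ‖ξ‖
      simpa using this
    have e2 := (e1.sin).const_mul (-(2 * Real.pi * ‖ξ‖))
    have e3 : -(2 * Real.pi * ‖ξ‖) ^ 2 * Real.cos (2 * Real.pi * t * ‖ξ‖) =
        -(2 * Real.pi * ‖ξ‖) * (Real.cos (2 * Real.pi * t * ‖ξ‖) * (2 * Real.pi * ‖ξ‖)) := by ring
    rw [e3]
    exact e2
  · intro t ξ
    rw [abs_mul, abs_neg, abs_of_nonneg (by positivity : 0 ≤ (2 * Real.pi * ‖ξ‖) ^ 2)]
    exact mul_le_of_le_one_right (by positivity) (Real.abs_cos_le_one _)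
  · intro t
    refine (h1.norm.const_mul (2 * Real.pi)).mono' ?_ (Filter.Eventually.of_forall fun ξ => ?_)
    · exact (Complex.continuous_ofReal.comp (by fun_prop : Continuous fun ξ : E 3 =>
        -(2 * Real.pi * ‖ξ‖) * Real.sin (2 * Real.pi * t * ‖ξ‖))).aestronglyMeasurable.mul h0.1
    · rw [norm_mul, norm_mul, Complex.norm_real, Complex.norm_real, norm_mul, norm_neg,
        Real.norm_of_nonneg (by positivity : 0 ≤ 2 * Real.pi * ‖ξ‖), pow_one, norm_norm]
      have : ‖Real.sin (2 * Real.pi * t * ‖ξ‖)‖ ≤ 1 := Real.abs_sin_le_one _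
      calc 2 * Real.pi * ‖ξ‖ * ‖Real.sin (2 * Real.pi * t * ‖ξ‖)‖ * ‖h ξ‖
          ≤ 2 * Real.pi * ‖ξ‖ * 1 * ‖h ξ‖ := by gcongr
        _ = _ := by ring
  · refine (h2.norm.const_mul ((2 * Real.pi) ^ 2)).congr (Filter.Eventually.of_forall fun ξ => ?_)
    simp only
    rw [norm_mul, Complex.norm_real, norm_pow, norm_norm]
    ring

/-- the one-dimensional inequality -/
lemma taylor {c d e : ℝ → ℂ} (hc : ∀ t, HasDerivAt c (d t) t) (hd : ∀ t, HasDerivAt d (e t) t)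
    (he : Continuous e) (t : ℝ) {δ : ℝ} (hδ : 0 < δ) :
    ENNReal.ofReal δ * ‖d t‖ₑ ≤ ‖c (t + δ)‖ₑ + ‖c t‖ₑ +
      ENNReal.ofReal δ * ∫⁻ r in Ioc 0 δ, ‖e (t + r)‖ₑ := by
  set J : ℝ := ∫ r in Ioc 0 δ, ‖e (t + r)‖ with hJ
  have hcont : Continuous fun r : ℝ => ‖e (t + r)‖ := by fun_prop
  have hint : IntegrableOn (fun r : ℝ => ‖e (t + r)‖) (Ioc 0 δ) :=
    (hcont.integrableOn_Icc).mono_set Ioc_subset_Icc_self
  have hJ' : ∫⁻ r in Ioc 0 δ, ‖e (t + r)‖ₑ = ENNReal.ofReal J := by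
    rw [hJ, ofReal_integral_eq_lintegral_ofReal hint
      (Filter.Eventually.of_forall fun r => norm_nonneg _)]
    refine lintegral_congr fun r => ?_
    rw [ofReal_norm]
  have hdJ : ∀ r ∈ Ico (0 : ℝ) δ, ‖d (t + r) - d t‖ ≤ J := by
    intro r hr
    have h1 : ∫ q in (0 : ℝ)..r, e (t + q) = d (t + r) - d t := by
      have h2 : ∀ q ∈ uIcc (0 : ℝ) r, HasDerivAt (fun q => d (t + q)) (e (t + q)) q := by
        intro q _
        exact (hd (t + q)).comp_const_add t q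
      rw [intervalIntegral.integral_eq_sub_of_hasDerivAt h2
        ((he.comp (by fun_prop : Continuous fun q : ℝ => t + q)).intervalIntegrable _ _), add_zero]
    rw [← h1]
    calc ‖∫ q in (0 : ℝ)..r, e (t + q)‖ ≤ ∫ q in Ioc 0 r, ‖e (t + q)‖ :=
          intervalIntegral.norm_integral_le_integral_norm_uIoc.trans (by rw [uIoc_of_le hr.1])
      _ ≤ J := by
          rw [hJ]
          apply setIntegral_mono_set hint
          · exact Filter.Eventually.of_forall fun r => norm_nonneg _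
          · exact (Ioc_subset_Ioc_right hr.2.le).eventuallyLE
  have hq : ∀ r ∈ Icc (0 : ℝ) δ, HasDerivWithinAt (fun r => c (t + r) - r • d t)
      (d (t + r) - d t) (Icc 0 δ) r := by
    intro r _
    have h1 : HasDerivAt (fun r => c (t + r)) (d (t + r)) r := by
      exact (hc (t + r)).comp_const_add t r
    have h2 : HasDerivAt (fun r : ℝ => r • d t) (d t) r := by
      have := (hasDerivAt_id r).smul_const (d t)
      simpa using this
    exact (h1.sub h2).hasDerivWithinAt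
  have h3 := norm_image_sub_le_of_norm_deriv_le_segment' hq hdJ δ (right_mem_Icc.mpr hδ.le)
  simp only [add_zero, zero_smul, sub_zero] at h3
  have h4 : δ * ‖d t‖ ≤ ‖c (t + δ)‖ + ‖c t‖ + δ * J := by
    have e1 : δ • d t = c (t + δ) - c t - (c (t + δ) - δ • d t - c t) := by ring
    have e2 : δ * ‖d t‖ = ‖δ • d t‖ := by rw [norm_smul, Real.norm_of_nonneg hδ.le]
    rw [e2, e1]
    calc ‖c (t + δ) - c t - (c (t + δ) - δ • d t - c t)‖
        ≤ ‖c (t + δ) - c t‖ + ‖c (t + δ) - δ • d t - c t‖ := norm_sub_le _ _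
      _ ≤ ‖c (t + δ)‖ + ‖c t‖ + δ * J := by
          have := norm_sub_le (c (t + δ)) (c t)
          rw [mul_comm J δ] at h3
          linarith
  rw [hJ', ← ofReal_norm, ← ofReal_norm, ← ofReal_norm, ← ENNReal.ofReal_mul hδ.le,
    ← ENNReal.ofReal_mul hδ.le, ← ENNReal.ofReal_add (norm_nonneg _) (norm_nonneg _),
    ← ENNReal.ofReal_add (by positivity) (mul_nonneg hδ.le (integral_nonneg fun r => norm_nonneg _))]
  exact ENNReal.ofReal_le_ofReal h4

/-- the `p`-th power -/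
lemma taylor_p {c d e : ℝ → ℂ} (hc : ∀ t, HasDerivAt c (d t) t) (hd : ∀ t, HasDerivAt d (e t) t)
    (he : Continuous e) {p : ℝ} (hp : 1 < p) (t : ℝ) {δ : ℝ} (hδ : 0 < δ) :
    (ENNReal.ofReal δ * ‖d t‖ₑ) ^ p ≤ ENNReal.ofReal (4 ^ p) * (‖c (t + δ)‖ₑ ^ p + ‖c t‖ₑ ^ p +
      ENNReal.ofReal (δ ^ (2 * p - 1)) * ∫⁻ r in Ioc 0 δ, ‖e (t + r)‖ₑ ^ p) := by
  have hp0 : 0 < p := by linarith
  have h1 : (ENNReal.ofReal δ * ∫⁻ r in Ioc 0 δ, ‖e (t + r)‖ₑ) ^ p ≤
      ENNReal.ofReal (δ ^ (2 * p - 1)) * ∫⁻ r in Ioc 0 δ, ‖e (t + r)‖ₑ ^ p := by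
    have hm : Measurable fun r : ℝ => ‖e (t + r)‖ₑ := by
      exact (he.comp (by fun_prop : Continuous fun q : ℝ => t + q)).measurable.enorm
    have h2 := Pool.Agent.U688.WV.jens (volume.restrict (Ioc 0 δ)) p hp (fun _ => 1)
      (fun r : ℝ => ‖e (t + r)‖ₑ) aemeasurable_const hm.aemeasurable
    simp only [one_mul, lintegral_const, Measure.restrict_apply_univ, Real.volume_Ioc, sub_zero] at h2
    calc (ENNReal.ofReal δ * ∫⁻ r in Ioc 0 δ, ‖e (t + r)‖ₑ) ^ p
        = ENNReal.ofReal δ ^ p * (∫⁻ r in Ioc 0 δ, ‖e (t + r)‖ₑ) ^ p :=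
          ENNReal.mul_rpow_of_nonneg _ _ hp0.le
      _ ≤ ENNReal.ofReal δ ^ p * (ENNReal.ofReal δ ^ (p - 1) *
            ∫⁻ r in Ioc 0 δ, ‖e (t + r)‖ₑ ^ p) := by gcongr
      _ = _ := by
          rw [← mul_assoc, ENNReal.ofReal_rpow_of_pos hδ, ENNReal.ofReal_rpow_of_pos hδ,
            ← ENNReal.ofReal_mul (by positivity), ← Real.rpow_add hδ]
          congr 3
          ring
  have h4 : ∀ a b c : ℝ≥0∞, (a + b + c) ^ p ≤ ENNReal.ofReal (4 ^ p) * (a ^ p + b ^ p + c ^ p) := by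
    intro a b c
    have hmax : a + b + c ≤ 4 * max (max a b) c := by
      calc a + b + c ≤ max (max a b) c + max (max a b) c + max (max a b) c := by
            gcongr
            · exact (le_max_left _ _).trans (le_max_left _ _)
            · exact (le_max_right _ _).trans (le_max_left _ _)
            · exact le_max_right _ _
        _ = 3 * max (max a b) c := by ring
        _ ≤ _ := by gcongr; norm_num
    calc (a + b + c) ^ p ≤ (4 * max (max a b) c) ^ p := by gcongr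
      _ = ENNReal.ofReal (4 ^ p) * (max (max a b) c) ^ p := by
          rw [ENNReal.mul_rpow_of_nonneg _ _ hp0.le,
            ← ENNReal.ofReal_rpow_of_nonneg (by norm_num) hp0.le, ENNReal.ofReal_ofNat]
      _ ≤ _ := by
          gcongr
          rcases le_total (max a b) c with h | h
          · rw [max_eq_right h]
            exact le_add_self
          · rw [max_eq_left h]
            rcases le_total a b with h' | h'
            · rw [max_eq_right h']
              exact le_add_self.trans le_self_add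
            · rw [max_eq_left h']
              exact le_self_add.trans le_self_add
  calc (ENNReal.ofReal δ * ‖d t‖ₑ) ^ p ≤ (‖c (t + δ)‖ₑ + ‖c t‖ₑ +
      ENNReal.ofReal δ * ∫⁻ r in Ioc 0 δ, ‖e (t + r)‖ₑ) ^ p := by
        gcongr
        exact taylor hc hd he t hδ
    _ ≤ _ := h4 _ _ _
    _ ≤ _ := by gcongr

end Pool.Agent.U562.WV
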