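import Pool.Agent.U562.WV.Vel
import Pool.Agent.U562.WV.Fin
set_option autoImplicit false

/-! The Cauchy problem with the data `φ_δ * f₀`, `δ Δ (φ_δ * f₁)`. -/

open MeasureTheory Set Metric
open scoped ENNReal NNReal FourierTransform RealInnerProductSpace SchwartzMap

namespace Pool.Agent.U562.WV

open Pool.Agent.U688.WV (ee ee_norm ee_meas inv_eq ee_int inv_add inv_meas inv_smul)
open Laplacian LineDeriv

/-- the solution with the data `u(0) = φ_δ * f₀`, `∂ₜ u(0) = δ Δ (φ_δ * f₁)` -/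
noncomputable def sol2 (φ : 𝓢(E 3, ℂ)) (δ : ℝ) (f₀ f₁ : E 3 → ℂ) (t : ℝ) (x : E 3) : ℂ :=
  inv (fun ξ => ((Real.cos (2 * Real.pi * t * ‖ξ‖) : ℝ) : ℂ) *
      (𝓕 (φ : E 3 → ℂ) (δ • ξ) * 𝓕 f₀ ξ) +
    ((Real.sin (2 * Real.pi * t * ‖ξ‖) / (2 * Real.pi * ‖ξ‖) : ℝ) : ℂ) *
      (((-(4 * Real.pi ^ 2 * δ * ‖ξ‖ ^ 2) : ℝ) : ℂ) * (𝓕 (φ : E 3 → ℂ) (δ • ξ) * 𝓕 f₁ ξ))) x

lemma four_lap (φ : 𝓢(E 3, ℂ)) (ξ : E 3) :
    𝓕 ((Δ φ : 𝓢(E 3, ℂ)) : E 3 → ℂ) ξ = ((-(4 * Real.pi ^ 2 * ‖ξ‖ ^ 2) : ℝ) : ℂ) * 𝓕 (φ : E 3 → ℂ) ξ := by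
  rw [← SchwartzMap.fourier_coe, ← SchwartzMap.fourier_coe,
    SchwartzMap.laplacian_eq_fourierMultiplierCLM, FourierTransform.fourier_smul,
    SchwartzMap.fourierMultiplierCLM_apply, FourierTransform.fourier_fourierInv_eq,
    SchwartzMap.smul_apply, SchwartzMap.smulLeftCLM_apply_apply (by fun_prop)]
  simp only [Pi.pow_apply, Complex.real_smul]
  push_cast
  ring

lemma lap_supp {φ : 𝓢(E 3, ℂ)} (hφ : tsupport φ ⊆ ball 0 1) :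
    tsupport ((Δ φ : 𝓢(E 3, ℂ)) : E 3 → ℂ) ⊆ ball 0 1 := by
  refine subset_trans ?_ hφ
  have h1 : Function.support ((Δ φ : 𝓢(E 3, ℂ)) : E 3 → ℂ) ⊆ tsupport φ := by
    intro x hx
    by_contra hxn
    apply hx
    rw [SchwartzMap.laplacian_eq_sum (stdOrthonormalBasis ℝ (E 3)), SchwartzMap.sum_apply]
    refine Finset.sum_eq_zero fun i _ => ?_
    apply image_eq_zero_of_notMem_tsupport
    intro h
    exact hxn (SchwartzMap.tsupport_lineDerivOp_subset _ _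
      (SchwartzMap.tsupport_lineDerivOp_subset _ _ h))
  exact closure_minimal h1 (isClosed_tsupport _)

lemma sol_meas (φ : 𝓢(E 3, ℂ)) (δ : ℝ) {f : E 3 → ℂ} (hf : Integrable f) :
    Measurable fun w : ℝ × E 3 => sol φ δ f w.1 w.2 := by
  have hF : (𝓕 (φ : E 3 → ℂ)) = ((𝓕 φ : 𝓢(E 3, ℂ)) : E 3 → ℂ) := (SchwartzMap.fourier_coe φ).symm
  have hfc : Continuous (𝓕 f) := by
    have := VectorFourier.fourierIntegral_continuous Real.continuous_fourierChar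
      (L := innerₗ (E 3)) continuous_inner hf
    exact this
  unfold sol
  refine inv_meas (fun t ξ => ((Real.cos (2 * Real.pi * t * ‖ξ‖) : ℝ) : ℂ) *
    (𝓕 (φ : E 3 → ℂ) (δ • ξ) * 𝓕 f ξ)) ?_
  apply Continuous.measurable
  unfold Function.uncurry
  have h1 : Continuous fun q : ℝ × E 3 => ((Real.cos (2 * Real.pi * q.1 * ‖q.2‖) : ℝ) : ℂ) :=
    Complex.continuous_ofReal.comp (by fun_prop)
  have h2 : Continuous fun q : ℝ × E 3 => 𝓕 (φ : E 3 → ℂ) (δ • q.2) := by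
    rw [hF]
    exact (𝓕 φ : 𝓢(E 3, ℂ)).continuous.comp ((continuous_const_smul δ).comp continuous_snd)
  exact h1.mul (h2.mul (hfc.comp continuous_snd))

lemma shift_le (G : ℝ → ℝ≥0∞) {r : ℝ} (hr : 0 ≤ r) (hr1 : r ≤ 1) :
    ∫⁻ t in Icc (0 : ℝ) 2, G (t + r) ≤ ∫⁻ t in Icc (0 : ℝ) 3, G t := by
  rw [← lintegral_indicator measurableSet_Icc, ← lintegral_indicator measurableSet_Icc,
    ← lintegral_add_right_eq_self ((Icc (0 : ℝ) 3).indicator G) r]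
  refine lintegral_mono fun t => ?_
  by_cases ht : t ∈ Icc (0 : ℝ) 2
  · have h2 : t + r ∈ Icc (0 : ℝ) 3 := ⟨by linarith [ht.1], by linarith [ht.2]⟩
    rw [indicator_of_mem ht, indicator_of_mem h2]
  · rw [indicator_of_notMem ht]
    exact zero_le

lemma ed_eq (φ : 𝓢(E 3, ℂ)) {δ : ℝ} (hδ : 0 < δ) (f : E 3 → ℂ) (t : ℝ) (x : E 3) :
    ed (fun ξ => 𝓕 (φ : E 3 → ℂ) (δ • ξ) * 𝓕 f ξ) t x =
      (((δ ^ 2)⁻¹ : ℝ) : ℂ) * sol (Δ φ) δ f t x := by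
  unfold ed sol
  rw [← inv_smul]
  congr 1
  funext ξ
  rw [four_lap, norm_smul, Real.norm_of_nonneg hδ.le]
  have e : (-(2 * Real.pi * ‖ξ‖) ^ 2 : ℝ) = (δ ^ 2)⁻¹ * -(4 * Real.pi ^ 2 * (δ * ‖ξ‖) ^ 2) := by
    field_simp
    ring
  rw [e]
  push_cast
  ring

lemma lin3 {a b c : ℝ → E 3 → ℝ≥0∞} (ha : Measurable fun w : ℝ × E 3 => a w.1 w.2)
    (hb : Measurable fun w : ℝ × E 3 => b w.1 w.2) (S : Set ℝ) {k l : ℝ≥0∞} (hk : k ≠ ∞)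
    (hl : l ≠ ∞) : ∫⁻ t in S, ∫⁻ x, k * (a t x + b t x + l * c t x) =
      k * ((∫⁻ t in S, ∫⁻ x, a t x) + (∫⁻ t in S, ∫⁻ x, b t x) + l * ∫⁻ t in S, ∫⁻ x, c t x) := by
  have m1 : Measurable fun t => ∫⁻ x, a t x := ha.lintegral_prod_right'
  have m2 : Measurable fun t => ∫⁻ x, b t x := hb.lintegral_prod_right'
  have h1 : ∀ t, ∫⁻ x, k * (a t x + b t x + l * c t x) =
      k * ((∫⁻ x, a t x) + (∫⁻ x, b t x) + l * ∫⁻ x, c t x) := by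
    intro t
    have n1 : Measurable fun x => a t x := ha.comp measurable_prodMk_left
    have n2 : Measurable fun x => b t x := hb.comp measurable_prodMk_left
    have n3 : Measurable fun x => a t x + b t x := n1.add n2
    rw [lintegral_const_mul' _ _ hk, lintegral_add_left n3, lintegral_add_left n1,
      lintegral_const_mul' _ _ hl]
  simp_rw [h1]
  have m3 : Measurable fun t => (∫⁻ x, a t x) + ∫⁻ x, b t x := m1.add m2
  rw [lintegral_const_mul' _ _ hk, lintegral_add_left m3, lintegral_add_left m1,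
    lintegral_const_mul' _ _ hl]

theorem vel_est (φ : 𝓢(E 3, ℂ)) {p : ℝ} (hp : 1 < p) {δ : ℝ} (hδ : 0 < δ) (hδ1 : δ ≤ 1)
    {f : E 3 → ℂ} (hf : Integrable f) :
    ∫⁻ t in Icc (0 : ℝ) 2, ∫⁻ x, (ENNReal.ofReal δ *
        ‖dd (fun ξ => 𝓕 (φ : E 3 → ℂ) (δ • ξ) * 𝓕 f ξ) t x‖ₑ) ^ p ≤
      ENNReal.ofReal (4 ^ p) * ((∫⁻ t in Icc (0 : ℝ) 3, ∫⁻ x, ‖sol φ δ f t x‖ₑ ^ p) +
        (∫⁻ t in Icc (0 : ℝ) 3, ∫⁻ x, ‖sol φ δ f t x‖ₑ ^ p) +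
        ∫⁻ t in Icc (0 : ℝ) 3, ∫⁻ x, ‖sol (Δ φ) δ f t x‖ₑ ^ p) := by
  set h : E 3 → ℂ := fun ξ => 𝓕 (φ : E 3 → ℂ) (δ • ξ) * 𝓕 f ξ with hh
  have h0 : Integrable h := by
    have := h_int φ hδ hf 0
    simpa using this
  have h1 := h_int φ hδ hf 1
  have h2 := h_int φ hδ hf 2
  set ψ : 𝓢(E 3, ℂ) := Δ φ with hψ
  have hψ0 : Integrable fun ξ => 𝓕 (ψ : E 3 → ℂ) (δ • ξ) * 𝓕 f ξ := by
    have := h_int ψ hδ hf 0
    simpa using this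
  have hp0 : 0 < p := by linarith
  have hms := sol_meas φ δ hf
  have hmψ := sol_meas ψ δ hf
  have hec : ∀ x, Continuous fun t => ed h t x := by
    intro x
    have e1 : (fun t => ed h t x) = fun t => (((δ ^ 2)⁻¹ : ℝ) : ℂ) * sol ψ δ f t x := by
      funext t
      exact ed_eq φ hδ f t x
    rw [e1]
    have e2 : Continuous fun t => sol ψ δ f t x := by
      rw [continuous_iff_continuousAt]
      intro t
      exact (cc_deriv hψ0 (h_int ψ hδ hf 1) x t).continuousAt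
    exact continuous_const.mul e2
  have hpt : ∀ t x, (ENNReal.ofReal δ * ‖dd h t x‖ₑ) ^ p ≤ ENNReal.ofReal (4 ^ p) *
      (‖sol φ δ f (t + δ) x‖ₑ ^ p + ‖sol φ δ f t x‖ₑ ^ p +
        ENNReal.ofReal (δ⁻¹) * ∫⁻ r in Ioc 0 δ, ‖sol ψ δ f (t + r) x‖ₑ ^ p) := by
    intro t x
    have h3 := taylor_p (c := fun t => cc h t x) (d := fun t => dd h t x) (e := fun t => ed h t x)
      (fun t => cc_deriv h0 h1 x t) (fun t => dd_deriv h0 h1 h2 x t) (hec x) hp t hδ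
    refine h3.trans (le_of_eq ?_)
    have e4 : ∀ r, ‖ed h (t + r) x‖ₑ ^ p =
        ENNReal.ofReal (δ ^ (-(2 * p))) * ‖sol ψ δ f (t + r) x‖ₑ ^ p := by
      intro r
      have : ed h (t + r) x = (((δ ^ 2)⁻¹ : ℝ) : ℂ) * sol ψ δ f (t + r) x := ed_eq φ hδ f (t + r) x
      rw [this, enorm_mul, ENNReal.mul_rpow_of_nonneg _ _ hp0.le]
      congr 1
      rw [← ofReal_norm, Complex.norm_real, Real.norm_of_nonneg (by positivity),
        ENNReal.ofReal_rpow_of_pos (by positivity)]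
      congr 1
      rw [Real.rpow_neg hδ.le, Real.rpow_mul hδ.le, Real.inv_rpow (by positivity), Real.rpow_two]
    simp only [e4]
    rw [lintegral_const_mul' _ _ ENNReal.ofReal_ne_top, ← mul_assoc (ENNReal.ofReal (δ ^ (2 * p - 1))),
      ← ENNReal.ofReal_mul (by positivity), ← Real.rpow_add hδ]
    have e5 : 2 * p - 1 + -(2 * p) = -1 := by ring
    rw [e5, Real.rpow_neg_one]
    rfl
  -- integration
  have hA : Measurable fun w : ℝ × E 3 => ‖sol φ δ f (w.1 + δ) w.2‖ₑ ^ p :=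
    ((hms.comp ((measurable_fst.add_const δ).prodMk measurable_snd)).enorm).pow_const p
  have hB : Measurable fun w : ℝ × E 3 => ‖sol φ δ f w.1 w.2‖ₑ ^ p := hms.enorm.pow_const p
  have hC : Measurable fun q : (ℝ × E 3) × ℝ => ‖sol ψ δ f (q.1.1 + q.2) q.1.2‖ₑ ^ p := by
    have : Measurable fun q : (ℝ × E 3) × ℝ => (q.1.1 + q.2, q.1.2) := by fun_prop
    exact ((hmψ.comp this).enorm).pow_const p
  set W : ℝ≥0∞ := ∫⁻ t in Icc (0 : ℝ) 3, ∫⁻ x, ‖sol ψ δ f t x‖ₑ ^ p with hW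
  have hthird : ∫⁻ t in Icc (0 : ℝ) 2, ∫⁻ x, ∫⁻ r in Ioc 0 δ, ‖sol ψ δ f (t + r) x‖ₑ ^ p ≤
      ENNReal.ofReal δ * W := by
    have s1 : ∀ t, ∫⁻ x, ∫⁻ r in Ioc 0 δ, ‖sol ψ δ f (t + r) x‖ₑ ^ p =
        ∫⁻ r in Ioc 0 δ, ∫⁻ x, ‖sol ψ δ f (t + r) x‖ₑ ^ p := by
      intro t
      rw [lintegral_lintegral_swap]
      have : Measurable fun q : E 3 × ℝ => ((t, q.1), q.2) := by fun_prop
      exact (hC.comp this).aemeasurable
    simp_rw [s1]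
    rw [lintegral_lintegral_swap]
    · calc ∫⁻ r in Ioc 0 δ, ∫⁻ t in Icc (0 : ℝ) 2, ∫⁻ x, ‖sol ψ δ f (t + r) x‖ₑ ^ p
          ≤ ∫⁻ r in Ioc 0 δ, W := by
            apply setLIntegral_mono' measurableSet_Ioc
            intro r hr
            exact shift_le (fun t => ∫⁻ x, ‖sol ψ δ f t x‖ₑ ^ p) hr.1.le (hr.2.trans hδ1)
        _ = ENNReal.ofReal δ * W := by
            rw [setLIntegral_const, Real.volume_Ioc, sub_zero, mul_comm]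
    · have hC' : Measurable fun q : (ℝ × ℝ) × E 3 => ‖sol ψ δ f (q.1.1 + q.1.2) q.2‖ₑ ^ p := by
        have : Measurable fun q : (ℝ × ℝ) × E 3 => (q.1.1 + q.1.2, q.2) := by fun_prop
        exact ((hmψ.comp this).enorm).pow_const p
      exact (hC'.lintegral_prod_right').aemeasurable
  have hL := lin3 (a := fun t x => ‖sol φ δ f (t + δ) x‖ₑ ^ p) (b := fun t x => ‖sol φ δ f t x‖ₑ ^ p)
    (c := fun t x => ∫⁻ r in Ioc 0 δ, ‖sol ψ δ f (t + r) x‖ₑ ^ p) hA hB (Icc (0 : ℝ) 2)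
    (k := ENNReal.ofReal (4 ^ p)) (l := ENNReal.ofReal (δ⁻¹)) ENNReal.ofReal_ne_top
    ENNReal.ofReal_ne_top
  refine (lintegral_mono fun t => lintegral_mono fun x => hpt t x).trans ?_
  rw [hL]
  refine mul_le_mul_right ?_ _
  refine add_le_add (add_le_add ?_ ?_) ?_
  · exact shift_le (fun t => ∫⁻ x, ‖sol φ δ f t x‖ₑ ^ p) hδ.le hδ1
  · exact lintegral_mono_set (Icc_subset_Icc_right (by norm_num))
  · calc _ ≤ ENNReal.ofReal (δ⁻¹) * (ENNReal.ofReal δ * W) := mul_le_mul_right hthird _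
      _ = W := by
        rw [← mul_assoc, ← ENNReal.ofReal_mul (by positivity), inv_mul_cancel₀ hδ.ne',
          ENNReal.ofReal_one, one_mul]

lemma sol2_eq (φ : 𝓢(E 3, ℂ)) {δ : ℝ} (hδ : 0 < δ) {f₀ f₁ : E 3 → ℂ} (hf₀ : Integrable f₀)
    (hf₁ : Integrable f₁) (t : ℝ) (x : E 3) : sol2 φ δ f₀ f₁ t x = sol φ δ f₀ t x +
      ((δ : ℝ) : ℂ) * dd (fun ξ => 𝓕 (φ : E 3 → ℂ) (δ • ξ) * 𝓕 f₁ ξ) t x := by
  unfold sol2 sol dd
  rw [← inv_smul, ← inv_add]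
  · congr 1
    funext ξ
    congr 1
    by_cases hξ : ‖ξ‖ = 0
    · rw [hξ]
      simp
    · have e : Real.sin (2 * Real.pi * t * ‖ξ‖) / (2 * Real.pi * ‖ξ‖) *
          (-(4 * Real.pi ^ 2 * δ * ‖ξ‖ ^ 2)) =
          δ * (-(2 * Real.pi * ‖ξ‖) * Real.sin (2 * Real.pi * t * ‖ξ‖)) := by
        field_simp
        ring
      have m0 : ∀ a b c d : ℝ, a * b = c * d → ∀ z : ℂ,
          ((a : ℝ) : ℂ) * (((b : ℝ) : ℂ) * z) = ((c : ℝ) : ℂ) * (((d : ℝ) : ℂ) * z) := by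
        intro a b c d h z
        rw [← mul_assoc, ← mul_assoc, ← Complex.ofReal_mul, ← Complex.ofReal_mul, h]
      exact m0 _ _ _ _ e _
  · have h0 : Integrable fun ξ : E 3 => 𝓕 (φ : E 3 → ℂ) (δ • ξ) * 𝓕 f₀ ξ := by
      have := h_int φ hδ hf₀ 0
      simpa using this
    refine h0.bdd_mul (c := 1) ?_ (Filter.Eventually.of_forall fun ξ => ?_)
    · exact (Complex.continuous_ofReal.comp (by fun_prop : Continuous fun ξ : E 3 =>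
        Real.cos (2 * Real.pi * t * ‖ξ‖))).aestronglyMeasurable
    · rw [Complex.norm_real]
      exact Real.abs_cos_le_one _
  · refine Integrable.const_mul ?_ _
    have h0 : Integrable fun ξ : E 3 => 𝓕 (φ : E 3 → ℂ) (δ • ξ) * 𝓕 f₁ ξ := by
      have := h_int φ hδ hf₁ 0
      simpa using this
    refine ((h_int φ hδ hf₁ 1).norm.const_mul (2 * Real.pi)).mono' ?_
      (Filter.Eventually.of_forall fun ξ => ?_)
    · exact (Complex.continuous_ofReal.comp (by fun_prop : Continuous fun ξ : E 3 =>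
        -(2 * Real.pi * ‖ξ‖) * Real.sin (2 * Real.pi * t * ‖ξ‖))).aestronglyMeasurable.mul h0.1
    · have h3 : ‖Real.sin (2 * Real.pi * t * ‖ξ‖)‖ ≤ 1 := Real.abs_sin_le_one _
      have h4 : ‖(((‖ξ‖ ^ 1 : ℝ) : ℂ) * (𝓕 (φ : E 3 → ℂ) (δ • ξ) * 𝓕 f₁ ξ))‖ =
          ‖ξ‖ * ‖𝓕 (φ : E 3 → ℂ) (δ • ξ) * 𝓕 f₁ ξ‖ := by
        rw [norm_mul, Complex.norm_real, pow_one, norm_norm]
      rw [h4, norm_mul, Complex.norm_real, norm_mul, norm_neg,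
        Real.norm_of_nonneg (by positivity : 0 ≤ 2 * Real.pi * ‖ξ‖)]
      calc 2 * Real.pi * ‖ξ‖ * ‖Real.sin (2 * Real.pi * t * ‖ξ‖)‖ *
            ‖𝓕 (φ : E 3 → ℂ) (δ • ξ) * 𝓕 f₁ ξ‖
          ≤ 2 * Real.pi * ‖ξ‖ * 1 * ‖𝓕 (φ : E 3 → ℂ) (δ • ξ) * 𝓕 f₁ ξ‖ := by gcongr
        _ = _ := by ring

/-- the trilinear inequality for the Cauchy problem -/
theorem full_est (φ : 𝓢(E 3, ℂ)) (hφ : tsupport φ ⊆ ball 0 1) {p : ℝ} (hp : 3 ≤ p) :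
    ∃ C : ℝ, 0 < C ∧ ∀ (δ : ℝ) (f₀ f₁ : E 3 → ℂ), 0 < δ → δ ≤ 1 → Integrable f₀ →
      Integrable f₁ →
      ∫⁻ t in Icc (0 : ℝ) 2, ∫⁻ x, ‖sol2 φ δ f₀ f₁ t x‖ₑ ^ p ≤
        ENNReal.ofReal (C * δ ^ (2 - p)) * (Tri p δ f₀ + Tri p δ f₁) := by
  obtain ⟨C₁, hC₁, h1⟩ := tri_est Pool.Agent.U480.WV.t_KIR a_MAIN φ hφ hp
  obtain ⟨C₂, hC₂, h2⟩ := tri_est Pool.Agent.U480.WV.t_KIR a_MAIN (Δ φ) (lap_supp hφ) hp
  have hp0 : 0 < p := by linarith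
  refine ⟨2 ^ (p - 1) * (4 ^ p * (2 * C₁ + C₂) + C₁), by positivity, ?_⟩
  intro δ f₀ f₁ hδ hδ1 hf₀ hf₁
  have hδp : 0 < δ ^ (2 - p) := Real.rpow_pos_of_pos hδ _
  have hm : Measurable fun w : ℝ × E 3 => ‖sol φ δ f₀ w.1 w.2‖ₑ ^ p :=
    (sol_meas φ δ hf₀).enorm.pow_const p
  set h : E 3 → ℂ := fun ξ => 𝓕 (φ : E 3 → ℂ) (δ • ξ) * 𝓕 f₁ ξ with hh
  have h3 : ∫⁻ t in Icc (0 : ℝ) 2, ∫⁻ x, ‖sol2 φ δ f₀ f₁ t x‖ₑ ^ p ≤
      ∫⁻ t in Icc (0 : ℝ) 2, (∫⁻ x, ENNReal.ofReal (2 ^ (p - 1)) *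
          (‖sol φ δ f₀ t x‖ₑ ^ p + (ENNReal.ofReal δ * ‖dd h t x‖ₑ) ^ p)) := by
    refine lintegral_mono fun t => lintegral_mono fun x => ?_
    simp only
    rw [sol2_eq φ hδ hf₀ hf₁]
    refine le_trans ?_ (two_pow (by linarith) _ _)
    refine ENNReal.rpow_le_rpow ((enorm_add_le _ _).trans ?_) hp0.le
    rw [enorm_mul, ← ofReal_norm (((δ : ℝ) : ℂ)), Complex.norm_real, Real.norm_of_nonneg hδ.le]
  have h4 := split_meas (X := fun t x => ‖sol φ δ f₀ t x‖ₑ ^ p)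
    (Y := fun t x => (ENNReal.ofReal δ * ‖dd h t x‖ₑ) ^ p) hm (Icc (0 : ℝ) 2)
    (ENNReal.ofReal (2 ^ (p - 1))) ENNReal.ofReal_ne_top
  have h5 : ∫⁻ t in Icc (0 : ℝ) 2, ∫⁻ x, ‖sol φ δ f₀ t x‖ₑ ^ p ≤
      ENNReal.ofReal (C₁ * δ ^ (2 - p)) * Tri p δ f₀ :=
    (lintegral_mono_set (Icc_subset_Icc_right (by norm_num))).trans (h1 δ f₀ hδ hδ1 hf₀)
  have h6 : ∫⁻ t in Icc (0 : ℝ) 2, ∫⁻ x, (ENNReal.ofReal δ * ‖dd h t x‖ₑ) ^ p ≤
      ENNReal.ofReal (4 ^ p * (2 * C₁ + C₂) * δ ^ (2 - p)) * Tri p δ f₁ := by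
    refine (vel_est φ (by linarith) hδ hδ1 hf₁).trans ?_
    calc _ ≤ ENNReal.ofReal (4 ^ p) * (ENNReal.ofReal (C₁ * δ ^ (2 - p)) * Tri p δ f₁ +
          ENNReal.ofReal (C₁ * δ ^ (2 - p)) * Tri p δ f₁ +
          ENNReal.ofReal (C₂ * δ ^ (2 - p)) * Tri p δ f₁) := by
          gcongr
          · exact h1 δ f₁ hδ hδ1 hf₁
          · exact h1 δ f₁ hδ hδ1 hf₁
          · exact h2 δ f₁ hδ hδ1 hf₁
      _ = _ := by
          rw [← add_mul, ← add_mul, ← mul_assoc, ← ENNReal.ofReal_add (by positivity) (by positivity),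
            ← ENNReal.ofReal_add (by positivity) (by positivity),
            ← ENNReal.ofReal_mul (by positivity)]
          congr 2
          ring
  refine h3.trans ?_
  rw [h4]
  calc _ ≤ ENNReal.ofReal (2 ^ (p - 1)) * (ENNReal.ofReal (C₁ * δ ^ (2 - p)) * Tri p δ f₀ +
        ENNReal.ofReal (4 ^ p * (2 * C₁ + C₂) * δ ^ (2 - p)) * Tri p δ f₁) := by gcongr
    _ ≤ ENNReal.ofReal (2 ^ (p - 1)) *
        (ENNReal.ofReal ((4 ^ p * (2 * C₁ + C₂) + C₁) * δ ^ (2 - p)) * Tri p δ f₀ +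
        ENNReal.ofReal ((4 ^ p * (2 * C₁ + C₂) + C₁) * δ ^ (2 - p)) * Tri p δ f₁) := by
        have k1 : C₁ ≤ 4 ^ p * (2 * C₁ + C₂) + C₁ := by
          have : 0 ≤ (4 : ℝ) ^ p * (2 * C₁ + C₂) := by positivity
          linarith
        have k2 : 4 ^ p * (2 * C₁ + C₂) ≤ 4 ^ p * (2 * C₁ + C₂) + C₁ := by linarith
        gcongr
    _ = _ := by
        rw [← mul_add, ← mul_assoc, ← ENNReal.ofReal_mul (by positivity)]
        congr 2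
        ring

end Pool.Agent.U562.WV
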